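import Pool.Agent.H216.IG.Stm

set_option autoImplicit false

/-! A clique gives syzygies (helper276 for helper216). -/

namespace Pool.Agent.H216.IG.CLQ

open MvPolynomial Module Pool.Agent.H216.SOS

/-- dual functionals of a linearly independent family -/
theorem exists_dual {c : ℕ} {V : Type*} [AddCommGroup V] [Module ℂ V] {a : Fin c → V}
    (ha : LinearIndependent ℂ a) : ∃ f : V →ₗ[ℂ] (Fin c → ℂ), ∀ s, f (a s) = Pi.single s 1 := by
  have hker : LinearMap.ker (Fintype.linearCombination ℂ a) = ⊥ := by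
    rw [LinearMap.ker_eq_bot']
    intro x hx
    funext s
    rw [Fintype.linearIndependent_iff] at ha
    exact ha x hx s
  obtain ⟨f, hf⟩ := LinearMap.exists_leftInverse_of_injective (Fintype.linearCombination ℂ a) hker
  refine ⟨f, fun s => ?_⟩
  have h1 : Fintype.linearCombination ℂ a (Pi.single s 1) = a s := by
    rw [Fintype.linearCombination_apply_single, one_smul]
  rw [← h1]
  exact LinearMap.congr_fun hf (Pi.single s 1)

/-- products -/
theorem lc_prod {n m : ℕ} (q : Fin m → R n) (a : Fin n → ℂ) (β : Fin m → ℂ) :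
    Fintype.linearCombination ℂ (fun x : Fin n × Fin m => (X x.1 : R n) * q x.2)
      (fun x => a x.1 * β x.2) = lin a * ∑ j, β j • q j := by
  rw [Fintype.linearCombination_apply, Fintype.sum_prod_type, lin_def, Finset.sum_mul_sum]
  refine Finset.sum_congr rfl fun i _ => Finset.sum_congr rfl fun j _ => ?_
  rw [MvPolynomial.smul_eq_C_mul, MvPolynomial.smul_eq_C_mul, C_mul]
  ring

/-- the functional -/
theorem dual_prod {n m c : ℕ} (f : (Fin n → ℂ) →ₗ[ℂ] (Fin c → ℂ))
    (g : (Fin m → ℂ) →ₗ[ℂ] (Fin c → ℂ)) (s t : Fin c) :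
    ∃ D : (Fin n × Fin m → ℂ) →ₗ[ℂ] ℂ, ∀ (a : Fin n → ℂ) (β : Fin m → ℂ),
      D (fun x => a x.1 * β x.2) = f a s * g β t := by
  refine ⟨{ toFun := fun M => f (fun i => g (fun j => M (i, j)) t) s
            map_add' := ?_
            map_smul' := ?_ }, ?_⟩
  · intro M M'
    have h1 : (fun i => g (fun j => (M + M') (i, j)) t) =
        (fun i => g (fun j => M (i, j)) t) + fun i => g (fun j => M' (i, j)) t := by
      funext i
      have h2 : (fun j => (M + M') (i, j)) = (fun j => M (i, j)) + fun j => M' (i, j) := rfl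
      rw [h2, map_add]
      rfl
    rw [h1, map_add]
    rfl
  · intro r M
    have h1 : (fun i => g (fun j => (r • M) (i, j)) t) =
        r • fun i => g (fun j => M (i, j)) t := by
      funext i
      have h2 : (fun j => (r • M) (i, j)) = r • fun j => M (i, j) := rfl
      rw [h2, map_smul]
      rfl
    rw [h1, map_smul]
    rfl
  · intro a β
    show f (fun i => g (fun j => a i * β j) t) s = f a s * g β t
    have h1 : (fun i => g (fun j => a i * β j) t) = (g β t) • a := by
      funext i
      have h2 : (fun j => a i * β j) = a i • β := rfl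
      rw [h2, map_smul]
      show a i * g β t = g β t * a i
      ring
    rw [h1, map_smul]
    show g β t * f a s = f a s * g β t
    ring

theorem t_CLQ : S_CLQ := by
  classical
  intro n m c q g A hq hg hA hc
  -- a linearly independent family in `A`
  obtain ⟨a, haA, ha⟩ : ∃ a : Fin c → (Fin n → ℂ), (∀ s, a s ∈ A) ∧ LinearIndependent ℂ a := by
    have b := Module.finBasis ℂ A
    refine ⟨fun s => (b (Fin.castLE hc s) : Fin n → ℂ), fun s => (b _).2, ?_⟩
    have h1 := b.linearIndependent.map' A.subtype (Submodule.ker_subtype A)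
    exact h1.comp (Fin.castLE hc) (Fin.castLE_injective hc)
  choose β hβ using fun s => (Submodule.mem_span_range_iff_exists_fun ℂ).1 (hA (a s) (haA s))
  -- independence of the coordinates
  have hβi : LinearIndependent ℂ β := by
    rw [Fintype.linearIndependent_iff] at ha ⊢
    intro x hx
    apply ha
    have h1 : ∑ s, x s • (lin (a s) * g) = 0 := by
      have h2 : ∀ s, x s • (lin (a s) * g) = ∑ j, (x s * β s j) • q j := by
        intro s
        rw [← hβ s, Finset.smul_sum]
        exact Finset.sum_congr rfl fun j _ => smul_smul _ _ _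
      simp only [h2]
      rw [Finset.sum_comm]
      refine Finset.sum_eq_zero fun j _ => ?_
      rw [← Finset.sum_smul]
      have h3 : ∑ s, x s * β s j = 0 := by
        have h4 := congrFun hx j
        rw [Finset.sum_apply] at h4
        exact h4
      rw [h3, zero_smul]
    have h2 : lin (∑ s, x s • a s) * g = 0 := by
      have h3 : lin (∑ s, x s • a s) = ∑ s, x s • lin (a s) := by
        show linL n (∑ s, x s • a s) = ∑ s, x s • linL n (a s)
        rw [map_sum]
        exact Finset.sum_congr rfl fun s _ => map_smul _ _ _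
      rw [h3, Finset.sum_mul, ← h1]
      exact Finset.sum_congr rfl fun s _ => smul_mul_assoc _ _ _
    rcases mul_eq_zero.1 h2 with h | h
    · by_contra hne
      exact lin_ne_zero hne h
    · exact absurd h hg
  obtain ⟨f, hf⟩ := exists_dual ha
  obtain ⟨f', hf'⟩ := exists_dual hβi
  obtain ⟨Φ, hΦ⟩ : ∃ Φ : (Fin n × Fin m → ℂ) →ₗ[ℂ] R n,
      Φ = Fintype.linearCombination ℂ (fun x : Fin n × Fin m => (X x.1 : R n) * q x.2) := ⟨_, rfl⟩
  -- the syzygies
  obtain ⟨K, hK⟩ : ∃ K : ((t : Fin c) × Fin t.1) → (Fin n × Fin m → ℂ), K = fun y =>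
      (fun x => a ⟨y.2.1, y.2.2.trans y.1.2⟩ x.1 * β y.1 x.2) -
        fun x => a y.1 x.1 * β ⟨y.2.1, y.2.2.trans y.1.2⟩ x.2 := ⟨_, rfl⟩
  have hKy : ∀ y, K y = (fun x : Fin n × Fin m => a ⟨y.2.1, y.2.2.trans y.1.2⟩ x.1 * β y.1 x.2) -
      fun x : Fin n × Fin m => a y.1 x.1 * β ⟨y.2.1, y.2.2.trans y.1.2⟩ x.2 := fun y => by rw [hK]
  clear hK
  have hKker : ∀ y, K y ∈ LinearMap.ker Φ := by
    intro y
    rw [LinearMap.mem_ker, hKy y, map_sub, hΦ,
      lc_prod q (a ⟨y.2.1, y.2.2.trans y.1.2⟩) (β y.1),
      lc_prod q (a y.1) (β ⟨y.2.1, y.2.2.trans y.1.2⟩), hβ, hβ]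
    ring
  have hKi : LinearIndependent ℂ K := by
    rw [Fintype.linearIndependent_iff]
    intro x hx y
    obtain ⟨D, hD⟩ := dual_prod f f' ⟨y.2.1, y.2.2.trans y.1.2⟩ y.1
    have h1 : ∀ z, D (K z) = if z = y then 1 else 0 := by
      intro z
      rw [hKy z, map_sub, hD (a ⟨z.2.1, z.2.2.trans z.1.2⟩) (β z.1),
        hD (a z.1) (β ⟨z.2.1, z.2.2.trans z.1.2⟩), hf, hf, hf', hf']
      rw [Pi.single_apply, Pi.single_apply, Pi.single_apply, Pi.single_apply]
      obtain ⟨t, s⟩ := y
      obtain ⟨t', s'⟩ := z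
      by_cases h2 : (⟨t', s'⟩ : (t : Fin c) × Fin t.1) = ⟨t, s⟩
      · rw [if_pos h2]
        cases h2
        rw [if_pos rfl, if_pos rfl]
        have h3 : ¬ ((⟨s.1, s.2.trans t.2⟩ : Fin c) = t) := by
          intro h4
          have h5 := congrArg Fin.val h4
          have h6 := s.2
          simp only at h5
          omega
        rw [if_neg h3]
        ring
      · rw [if_neg h2]
        have h3 : ¬ (((⟨s.1, s.2.trans t.2⟩ : Fin c) = ⟨s'.1, s'.2.trans t'.2⟩) ∧ t = t') := by
          rintro ⟨h4, h5⟩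
          apply h2
          subst h5
          have h6 : s' = s := Fin.ext (congrArg Fin.val h4).symm
          rw [h6]
        have h7 : ¬ (((⟨s.1, s.2.trans t.2⟩ : Fin c) = t') ∧
            t = (⟨s'.1, s'.2.trans t'.2⟩ : Fin c)) := by
          rintro ⟨h4, h5⟩
          have h8 := congrArg Fin.val h4
          have h9 := congrArg Fin.val h5
          have h10 := s.2
          have h11 := s'.2
          simp only at h8 h9
          omega
        have e1 : ((if (⟨s.1, s.2.trans t.2⟩ : Fin c) = ⟨s'.1, s'.2.trans t'.2⟩ then (1 : ℂ) else 0) *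
            if t = t' then (1 : ℂ) else 0) = 0 := by
          by_cases h12 : (⟨s.1, s.2.trans t.2⟩ : Fin c) = ⟨s'.1, s'.2.trans t'.2⟩
          · by_cases h13 : t = t'
            · exact absurd ⟨h12, h13⟩ h3
            · rw [if_neg h13, mul_zero]
          · rw [if_neg h12, zero_mul]
        have e2 : ((if (⟨s.1, s.2.trans t.2⟩ : Fin c) = t' then (1 : ℂ) else 0) *
            if t = (⟨s'.1, s'.2.trans t'.2⟩ : Fin c) then (1 : ℂ) else 0) = 0 := by
          by_cases h12 : (⟨s.1, s.2.trans t.2⟩ : Fin c) = t'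
          · by_cases h13 : t = (⟨s'.1, s'.2.trans t'.2⟩ : Fin c)
            · exact absurd ⟨h12, h13⟩ h7
            · rw [if_neg h13, mul_zero]
          · rw [if_neg h12, zero_mul]
        exact (congrArg₂ (· - ·) e1 e2).trans (sub_zero 0)
    have h2 := congrArg D hx
    rw [map_sum, map_zero] at h2
    have h3 : ∀ z, D (x z • K z) = if z = y then x y else 0 := by
      intro z
      rw [map_smul, h1, smul_eq_mul]
      by_cases h4 : z = y
      · rw [if_pos h4, if_pos h4, h4, mul_one]
      · rw [if_neg h4, if_neg h4, mul_zero]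
    simp only [h3] at h2
    rw [Finset.sum_ite_eq' Finset.univ y (fun _ => x y), if_pos (Finset.mem_univ _)] at h2
    exact h2
  -- dimensions
  have hcard : 2 * Fintype.card ((t : Fin c) × Fin t.1) = c * (c - 1) := by
    rw [Fintype.card_sigma]
    simp only [Fintype.card_fin]
    rw [Fin.sum_univ_eq_sum_range (fun i => i) c, mul_comm, Finset.sum_range_id_mul_two]
  have hkdim : Fintype.card ((t : Fin c) × Fin t.1) ≤ finrank ℂ (LinearMap.ker Φ) := by
    rw [← finrank_span_eq_card hKi]
    apply Submodule.finrank_mono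
    rw [Submodule.span_le]
    rintro _ ⟨y, rfl⟩
    exact hKker y
  have hrange : LinearMap.range Φ = SS q := by
    rw [hΦ, Fintype.range_linearCombination]
    rfl
  have hrn := LinearMap.finrank_range_add_finrank_ker Φ
  rw [Module.finrank_fintype_fun_eq_card, Fintype.card_prod, Fintype.card_fin,
    Fintype.card_fin] at hrn
  have he : finrank ℂ (SS q) = finrank ℂ (LinearMap.range Φ) := by rw [hrange]
  rw [he]
  omega

end Pool.Agent.H216.IG.CLQ

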