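import Pool.Agent.H216.IG.Stm

set_option autoImplicit false

/-! The first order relation (task E1). -/

namespace Pool.Agent.H216.IG.E1

open MvPolynomial Module Pool.Agent.H216.SOS Pool.Agent.H216.IG

theorem pderiv_lin {k : ℕ} (a : Fin k → ℂ) (j : Fin k) : pderiv j (lin a) = C (a j) := by
  rw [lin_def, map_sum, Finset.sum_eq_single j]
  · rw [pderiv_C_mul, pderiv_X_self, mul_one]
  · intro i _ hi
    rw [pderiv_C_mul, pderiv_X_of_ne hi, mul_zero]
  · intro h
    exact absurd (Finset.mem_univ j) h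

theorem pb_C {n k : ℕ} (φ : Matrix (Fin n) (Fin k) ℂ) (c : ℂ) : pb φ (C c) = C c := by
  unfold pb
  rw [aeval_C]
  rfl

theorem pb_X {n k : ℕ} (φ : Matrix (Fin n) (Fin k) ℂ) (i : Fin n) : pb φ (X i) = lin (φ i) := by
  unfold pb
  rw [aeval_X]

theorem pderiv_pb {n k : ℕ} (φ : Matrix (Fin n) (Fin k) ℂ) (j : Fin k) (f : R n) :
    pderiv j (pb φ f) = ∑ i, C (φ i j) * pb φ (pderiv i f) := by
  induction f using MvPolynomial.induction_on with
  | C a =>
    rw [pb_C, pderiv_C]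
    symm
    apply Finset.sum_eq_zero
    intro i _
    rw [pderiv_C, map_zero, mul_zero]
  | add p q hp hq =>
    rw [map_add, map_add, hp, hq, ← Finset.sum_add_distrib]
    refine Finset.sum_congr rfl fun i _ => ?_
    rw [map_add, map_add, mul_add]
  | mul_X p i₀ hp =>
    have h1 : ∀ i, pb φ (pderiv i (p * X i₀)) = pb φ (pderiv i p) * lin (φ i₀) +
        pb φ p * (if i = i₀ then 1 else 0) := by
      intro i
      rw [pderiv_mul, map_add, map_mul, map_mul, pb_X]
      congr 2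
      split_ifs with h
      · rw [h, pderiv_X_self, map_one]
      · rw [pderiv_X_of_ne (Ne.symm h), map_zero]
    rw [map_mul, pb_X, pderiv_mul, hp, pderiv_lin, Finset.sum_mul]
    simp only [h1, mul_add, Finset.sum_add_distrib]
    congr 1
    · exact Finset.sum_congr rfl fun i _ => by rw [mul_assoc]
    · rw [Finset.sum_eq_single i₀]
      · rw [if_pos rfl, mul_one, mul_comm]
      · intro i _ hi
        rw [if_neg hi, mul_zero, mul_zero]
      · intro h
        exact absurd (Finset.mem_univ i₀) h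

/-- the matrix `χ` with one more column `z` -/
noncomputable def ext {n a : ℕ} (χ : Matrix (Fin n) (Fin a) ℂ) (z : Fin n → ℂ) :
    Matrix (Fin n) (Fin (a + 1)) ℂ := fun i => Fin.snoc (α := fun _ => ℂ) (χ i) (z i)

theorem ext_mulVec {n a : ℕ} (χ : Matrix (Fin n) (Fin a) ℂ) (z : Fin n → ℂ) (t : Fin a → ℂ)
    (s : ℂ) : (ext χ z).mulVec (Fin.snoc (α := fun _ => ℂ) t s) = χ.mulVec t + s • z := by
  funext i
  simp only [Matrix.mulVec, dotProduct, Fin.sum_univ_castSucc, ext, Fin.snoc_castSucc,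
    Fin.snoc_last, Pi.add_apply, Pi.smul_apply, smul_eq_mul]
  ring

theorem ext_mul {n a : ℕ} (χ : Matrix (Fin n) (Fin a) ℂ) (z : Fin n → ℂ) :
    ext χ z * sn (0 : Fin a → ℂ) = χ := by
  ext i j
  rw [Matrix.mul_apply, Fin.sum_univ_castSucc]
  simp [ext]

theorem t_E1 : S_E1 := by
  intro n a W _ χ hrk u₁ hu₁ u₂ hu₂ h₁ h₂ x
  -- both polynomials are multiples of one polynomial after the pull back by `ext χ z`
  have key : ∀ z : Fin n → ℂ, ∃ (v : R (a + 1)) (c₁ c₂ : ℂ),
      pb (ext χ z) u₁ = c₁ • v ∧ pb (ext χ z) u₂ = c₂ • v := by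
    intro z
    have e1 : res (res W (ext χ z)) (sn (0 : Fin a → ℂ)) = res W χ := by
      rw [res_res, ext_mul]
    have e2 := finrank_res_add_ker (res W (ext χ z)) (sn (0 : Fin a → ℂ))
    rw [e1] at e2
    have e3 := le_rk W (ext χ z)
    obtain ⟨K, hK⟩ : ∃ K : Submodule ℂ (R (a + 1)),
        K = (LinearMap.ker (pb (sn (0 : Fin a → ℂ))).toLinearMap ⊓ res W (ext χ z)) := ⟨_, rfl⟩
    rw [← hK] at e2
    have hfd : FiniteDimensional ℂ K := by
      rw [hK]
      exact Submodule.finiteDimensional_of_le inf_le_right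
    have e4 : finrank ℂ K ≤ 1 := by omega
    rw [finrank_le_one_iff] at e4
    obtain ⟨v, hv⟩ := e4
    have m1 : pb (ext χ z) u₁ ∈ K := by
      rw [hK, Submodule.mem_inf]
      refine ⟨?_, pb_mem_res _ hu₁⟩
      rw [LinearMap.mem_ker]
      change pb (sn (0 : Fin a → ℂ)) (pb (ext χ z) u₁) = 0
      rw [pb_pb, ext_mul, h₁]
    have m2 : pb (ext χ z) u₂ ∈ K := by
      rw [hK, Submodule.mem_inf]
      refine ⟨?_, pb_mem_res _ hu₂⟩
      rw [LinearMap.mem_ker]
      change pb (sn (0 : Fin a → ℂ)) (pb (ext χ z) u₂) = 0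
      rw [pb_pb, ext_mul, h₂]
    obtain ⟨c₁, hc₁⟩ := hv ⟨_, m1⟩
    obtain ⟨c₂, hc₂⟩ := hv ⟨_, m2⟩
    exact ⟨(v : R (a + 1)), c₁, c₂, (congrArg Subtype.val hc₁).symm, (congrArg Subtype.val hc₂).symm⟩
  have hz1 : ∀ (z : Fin n → ℂ), (ext χ z).mulVec (Fin.snoc (α := fun _ => ℂ) (0 : Fin a → ℂ) 1) = z := by
    intro z
    rw [ext_mulVec, Matrix.mulVec_zero, zero_add, one_smul]
  have hev : ∀ (z : Fin n → ℂ) (t : Fin a → ℂ) (s : ℂ) (u : R n),
      eval (χ.mulVec t + s • z) u = eval (Fin.snoc (α := fun _ => ℂ) t s) (pb (ext χ z) u) := by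
    intro z t s u
    rw [eval_pb, ext_mulVec]
  have hev1 : ∀ (z : Fin n → ℂ) (u : R n),
      eval z u = eval (Fin.snoc (α := fun _ => ℂ) (0 : Fin a → ℂ) 1) (pb (ext χ z) u) := by
    intro z u
    rw [eval_pb, hz1]
  refine ⟨?_, fun z t s => ?_⟩
  · apply MvPolynomial.funext
    intro z
    obtain ⟨v, c₁, c₂, k1, k2⟩ := key z
    have hD : ∀ (u : R n), eval z (lin (grad u (χ.mulVec x))) =
        eval (Fin.snoc (α := fun _ => ℂ) x 0) (pderiv (Fin.last a) (pb (ext χ z) u)) := by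
      intro u
      rw [pderiv_pb, map_sum, eval_lin]
      refine Finset.sum_congr rfl fun i _ => ?_
      rw [map_mul, eval_C, eval_pb, ext_mulVec, zero_smul, add_zero]
      have : ext χ z i (Fin.last a) = z i := by simp [ext]
      rw [this, mul_comm]
      rfl
    rw [map_mul, map_mul, hD, hD, hev1 z u₁, hev1 z u₂, k1, k2]
    simp only [Derivation.map_smul, smul_eval]
    ring
  · obtain ⟨v, c₁, c₂, k1, k2⟩ := key z
    rw [hev, hev, hev1 z u₁, hev1 z u₂, k1, k2]
    simp only [smul_eval]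
    ring

end Pool.Agent.H216.IG.E1
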