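import Pool.Agent.H216.IG.Stm

set_option autoImplicit false

/-! The flag estimate: the sum of the generic ranks is at most the dimension of the space of the
products with linear forms. -/

namespace Pool.Agent.H216.IG.FLAG

open MvPolynomial Module Filter Pool.Agent.H216.SOS Pool.Agent.H216.IG

/-- the span of all products `X i * f`, `f ∈ Z` -/
noncomputable def VZ {n : ℕ} (Z : Submodule ℂ (R n)) : Submodule ℂ (R n) :=
  ⨆ i : Fin n, Z.map (LinearMap.mulLeft ℂ (X i : R n))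

instance {n : ℕ} (Z : Submodule ℂ (R n)) [FiniteDimensional ℂ Z] : FiniteDimensional ℂ (VZ Z) := by
  unfold VZ
  infer_instance

theorem X_mul_mem {n : ℕ} {Z : Submodule ℂ (R n)} (i : Fin n) {f : R n} (hf : f ∈ Z) :
    X i * f ∈ VZ Z :=
  (le_iSup (fun i : Fin n => Z.map (LinearMap.mulLeft ℂ (X i : R n))) i) ⟨f, hf, rfl⟩

theorem lin_mul_mem {n : ℕ} {Z : Submodule ℂ (R n)} (b : Fin n → ℂ) {f : R n} (hf : f ∈ Z) :
    lin b * f ∈ VZ Z := by
  rw [lin_def, Finset.sum_mul]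
  refine Submodule.sum_mem _ fun i _ => ?_
  have h : C (b i) * X i * f = b i • (X i * f) := by
    rw [MvPolynomial.smul_eq_C_mul, mul_assoc]
  rw [h]
  exact Submodule.smul_mem _ _ (X_mul_mem i hf)

theorem lin_single {n : ℕ} (j : Fin n) : lin (Pi.single j (1 : ℂ) : Fin n → ℂ) = X j := by
  apply MvPolynomial.funext
  intro x
  rw [eval_lin, eval_X]
  simp [Pi.single_apply]

theorem VZ_res_le {n k : ℕ} (Z : Submodule ℂ (R n)) (χ : Matrix (Fin n) (Fin k) ℂ)
    (π : Matrix (Fin k) (Fin n) ℂ) (hπ : π * χ = 1) : VZ (res Z χ) ≤ res (VZ Z) χ := by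
  refine iSup_le fun j => ?_
  rintro _ ⟨g, hg, rfl⟩
  obtain ⟨f, hf, rfl⟩ := mem_res.1 hg
  have h1 : pb χ (lin (π j)) = X j := by
    rw [pb_lin, ← lin_single]
    congr 1
    have h2 : Matrix.vecMul (π j) χ = (π * χ) j := by
      funext l
      rw [Matrix.mul_apply]
      rfl
    rw [h2, hπ]
    funext l
    rw [Matrix.one_apply, Pi.single_apply]
    by_cases hl : j = l
    · rw [if_pos hl, if_pos hl.symm]
    · rw [if_neg hl, if_neg (fun h => hl h.symm)]
  have h3 : LinearMap.mulLeft ℂ (X j : R k) (pb χ f) = pb χ (lin (π j) * f) := by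
    rw [map_mul, h1]
    rfl
  rw [h3]
  exact pb_mem_res χ (lin_mul_mem (π j) hf)

theorem main : ∀ (n : ℕ) (Z : Submodule ℂ (R n)) [FiniteDimensional ℂ Z],
    ∑ a ∈ Finset.Icc 1 n, rk Z a ≤ finrank ℂ (VZ Z) := by
  intro n
  induction n with
  | zero =>
    intro Z _
    simp
  | succ n ih =>
    intro Z _
    have h1 : ∀ᶠ χ : Matrix (Fin (n + 1)) (Fin n) ℂ in gen (Matrix (Fin (n + 1)) (Fin n) ℂ),
        ∀ a ∈ Finset.Icc 1 n, rk (res Z χ) a = rk Z a := by
      rw [Filter.eventually_all_finset]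
      intro a ha
      exact rk_res_gen Z (Finset.mem_Icc.1 ha).2
    obtain ⟨χ, h2, π, hπ⟩ := (h1.and (left_inv_gen (Nat.le_succ n))).exists
    obtain ⟨a0, ha0, hnull⟩ := exists_left_null (Nat.lt_succ_self n) χ
    have h3 := ih (res Z χ)
    have h4 := res_add_U_le (VZ Z) ha0 χ hnull
    have h5 : finrank ℂ (VZ (res Z χ)) ≤ finrank ℂ (res (VZ Z) χ) :=
      Submodule.finrank_mono (VZ_res_le Z χ π hπ)
    have hfd := (finrank_U_eq (VZ Z) ha0).1
    have h6 : finrank ℂ Z ≤ finrank ℂ (U (VZ Z) a0) :=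
      Submodule.finrank_mono fun f hf => mem_U.2 (lin_mul_mem a0 hf)
    rw [Finset.sum_Icc_succ_top (by omega), rk_self]
    have h7 : ∑ a ∈ Finset.Icc 1 n, rk Z a = ∑ a ∈ Finset.Icc 1 n, rk (res Z χ) a :=
      Finset.sum_congr rfl fun a ha => (h2 a ha).symm
    rw [h7]
    omega

theorem t_FLAG : S_FLAG := by
  intro n m q
  have hfd : FiniteDimensional ℂ (Submodule.span ℂ (Set.range q)) :=
    FiniteDimensional.span_of_finite ℂ (Set.finite_range _)
  refine (main n (Submodule.span ℂ (Set.range q))).trans ?_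
  refine Submodule.finrank_mono ?_
  refine iSup_le fun i => ?_
  rw [Submodule.map_span, Submodule.span_le]
  rintro _ ⟨_, ⟨j, rfl⟩, rfl⟩
  exact Submodule.subset_span ⟨(i, j), rfl⟩

end Pool.Agent.H216.IG.FLAG
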