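import Pool.Agent.H216.IG.Stm

set_option autoImplicit false

/-! The numerical lemma for the second family of gaps. -/

namespace Pool.Agent.H216.IG.NUM

open Finset Pool.Agent.H216.IG

/-- the lower bound for the ranks -/
theorem low {k j : ℕ} {r : ℕ → ℕ} (hkj : 2 * j + 2 ≤ k) (h1 : 1 ≤ r 1) (hk : ∀ b, r b ≤ k)
    (hmono : ∀ b, r b ≤ r (b + 1)) (hstr : ∀ b, 1 ≤ b → r b < k → r b + 1 ≤ r (b + 1))
    (hgap : ∀ a, 1 ≤ a → r (a + 1) ≤ r a + 1 → r a + 3 ≤ k → a + j ≤ r a) :
    ∀ b, 1 ≤ b → k ≤ r b ∨ 2 * b ≤ r b + 1 ∨ b + j ≤ r b := by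
  classical
  have hex : ∃ a, 1 ≤ a ∧ r (a + 1) ≤ r a + 1 := by
    by_contra hcon
    have h2 : ∀ a, 1 ≤ a → r a + 2 ≤ r (a + 1) := by
      intro a ha
      by_contra h3
      exact hcon ⟨a, ha, by omega⟩
    have h3 : ∀ b, 2 * b + 1 ≤ r (b + 1) := by
      intro b
      induction b with
      | zero => simpa using h1
      | succ b ih =>
        have := h2 (b + 1) (by omega)
        omega
    have h4 := h3 k
    have h5 := hk (k + 1)
    omega
  obtain ⟨a, ⟨ha1, ha2⟩, hmin⟩ : ∃ a, (1 ≤ a ∧ r (a + 1) ≤ r a + 1) ∧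
      ∀ m, m < a → ¬ (1 ≤ m ∧ r (m + 1) ≤ r m + 1) :=
    ⟨Nat.find hex, Nat.find_spec hex, fun m hm => Nat.find_min hex hm⟩
  have hA : ∀ b, b + 1 ≤ a → 2 * (b + 1) ≤ r (b + 1) + 1 := by
    intro b
    induction b with
    | zero =>
      intro _
      have : r (0 + 1) = r 1 := rfl
      omega
    | succ b ih =>
      intro hb
      have h2 := ih (by omega)
      have h3 := hmin (b + 1) (by omega)
      have h4 : r (b + 1) + 2 ≤ r (b + 1 + 1) := by
        by_contra h5
        exact h3 ⟨by omega, by omega⟩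
      omega
  have hA' : ∀ b, 1 ≤ b → b ≤ a → 2 * b ≤ r b + 1 := by
    intro b hb hba
    obtain ⟨c, rfl⟩ : ∃ c, b = c + 1 := ⟨b - 1, by omega⟩
    exact hA c hba
  intro b hb
  by_cases hba : b ≤ a
  · exact Or.inr (Or.inl (hA' b hb hba))
  obtain ⟨i, rfl⟩ : ∃ i, b = a + i := ⟨b - a, by omega⟩
  by_cases hc : r a + 3 ≤ k
  · have hj := hgap a ha1 ha2 hc
    have h2 : ∀ i, k ≤ r (a + i) ∨ a + i + j ≤ r (a + i) := by
      intro i
      induction i with
      | zero => exact Or.inr (by simpa using hj)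
      | succ i ih =>
        have h3 := hmono (a + i)
        have h5 : r (a + (i + 1)) = r (a + i + 1) := rfl
        rcases ih with h4 | h4
        · left
          omega
        · by_cases h6 : r (a + i) < k
          · have h7 := hstr (a + i) (by omega) h6
            right
            omega
          · left
            omega
    rcases h2 i with h3 | h3
    · exact Or.inl h3
    · exact Or.inr (Or.inr h3)
  · obtain ⟨l, rfl⟩ : ∃ l, i = l + 1 := ⟨i - 1, by omega⟩
    have hA1 := hA' a ha1 le_rfl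
    have hm1 := hmono a
    have hs1 : k ≤ r (a + 1) ∨ r a + 1 ≤ r (a + 1) := by
      by_cases h6 : r a < k
      · exact Or.inr (hstr a ha1 h6)
      · left
        omega
    have hk1 : k ≤ r (a + 1) + 1 := by
      rcases hs1 with h | h <;> omega
    rcases l with _ | l
    · rcases hs1 with h | h
      · exact Or.inl h
      · rcases Nat.lt_or_ge j a with h7 | h7
        · right
          right
          have : r (a + (0 + 1)) = r (a + 1) := rfl
          omega
        · right
          left
          have : r (a + (0 + 1)) = r (a + 1) := rfl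
          omega
    · left
      have h2 : ∀ l, k ≤ r (a + 1 + 1 + l) := by
        intro l
        induction l with
        | zero =>
          have h3 := hmono (a + 1)
          by_cases h6 : r (a + 1) < k
          · have h7 := hstr (a + 1) (by omega) h6
            have : r (a + 1 + 1 + 0) = r (a + 1 + 1) := rfl
            omega
          · have : r (a + 1 + 1 + 0) = r (a + 1 + 1) := rfl
            omega
        | succ l ih =>
          have h3 := hmono (a + 1 + 1 + l)
          have : r (a + 1 + 1 + (l + 1)) = r (a + 1 + 1 + l + 1) := rfl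
          omega
      have h3 := h2 l
      have h4 : a + 1 + 1 + l = a + (l + 1 + 1) := by omega
      rw [h4] at h3
      exact h3

theorem t_NUM : S_NUM := by
  intro n k j r hj hjk hkn h1 hk hmono hstr hgap
  have hkj : 2 * j + 2 ≤ k := by
    by_contra hcon
    have h2 : k ≤ 2 * j + 1 := by omega
    have h3 : j * (j + 3) + 2 < 2 * (2 * j + 1) := by omega
    have h4 : 1 < j ∨ j = 1 := by omega
    rcases h4 with h4 | h4
    · have h5 : 2 * (j + 3) ≤ j * (j + 3) := Nat.mul_le_mul_right _ h4
      nlinarith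
    · subst h4
      omega
  have hlow := low hkj h1 hk hmono hstr hgap
  obtain ⟨m, rfl⟩ : ∃ m, k = j + 1 + m := ⟨k - (j + 1), by omega⟩
  have hjm : j + 1 ≤ m := by omega
  have e1 : j + 1 + m - j = m + 1 := by omega
  have e2 : m + 1 - 1 = m := by omega
  rw [e1, e2]
  obtain ⟨S, hS⟩ : ∃ S : ℕ → ℕ, ∀ N, S N = ∑ b ∈ Icc 1 N, r b := ⟨_, fun _ => rfl⟩
  have hS1 : ∀ N, S (N + 1) = S N + r (N + 1) := by
    intro N
    rw [hS, hS, Finset.sum_Icc_succ_top (by omega)]
  have hS0 : S 0 = 0 := by
    rw [hS]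
    rfl
  have st1 : ∀ N, N ≤ j + 1 → N * N ≤ S N := by
    intro N
    induction N with
    | zero =>
      intro _
      rw [hS0]
    | succ N ih =>
      intro hN
      have h2 := ih (by omega)
      have h3 : 2 * N + 1 ≤ r (N + 1) := by
        rcases hlow (N + 1) (by omega) with h | h | h <;> omega
      rw [hS1]
      have h4 : (N + 1) * (N + 1) = N * N + (2 * N + 1) := by ring
      omega
  have st2 : ∀ i, j + i ≤ m →
      2 * (((j : ℤ) + 1 + m) * (j + 1 + i)) + ((m : ℤ) - j - i) * (m - j - i - 1) ≤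
        2 * (S (j + 1 + i) : ℤ) + (m + 1) * m + (j + 1) * j := by
    intro i
    induction i with
    | zero =>
      intro _
      have h2 : (((j + 1) * (j + 1) : ℕ) : ℤ) ≤ (S (j + 1 + 0) : ℤ) := by
        exact_mod_cast st1 (j + 1) le_rfl
      push_cast at h2 ⊢
      linarith
    | succ i ih =>
      intro hi
      have h2 := ih (by omega)
      have h3 : 2 * j + 2 + i ≤ r (j + 1 + i + 1) := by
        rcases hlow (j + 1 + i + 1) (by omega) with h | h | h <;> omega
      have h4 : ((2 * j + 2 + i : ℕ) : ℤ) ≤ (r (j + 1 + i + 1) : ℤ) := by exact_mod_cast h3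
      have h5 : S (j + 1 + (i + 1)) = S (j + 1 + i) + r (j + 1 + i + 1) := hS1 _
      rw [h5]
      push_cast at h4 ⊢
      linarith
  have st3 : ∀ i, 2 * (((j : ℤ) + 1 + m) * (m + 1 + i)) ≤
      2 * (S (m + 1 + i) : ℤ) + (m + 1) * m + (j + 1) * j := by
    intro i
    induction i with
    | zero =>
      have h2 := st2 (m - j) (by omega)
      have h3 : j + 1 + (m - j) = m + 1 + 0 := by omega
      rw [h3] at h2
      have h4 : ((m - j : ℕ) : ℤ) = (m : ℤ) - j := by
        rw [Nat.cast_sub (by omega)]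
      rw [h4] at h2
      push_cast
      linarith
    | succ i ih =>
      have h3 : j + 1 + m ≤ r (m + 1 + i + 1) := by
        rcases hlow (m + 1 + i + 1) (by omega) with h | h | h <;> omega
      have h4 : ((j + 1 + m : ℕ) : ℤ) ≤ (r (m + 1 + i + 1) : ℤ) := by exact_mod_cast h3
      have h5 : S (m + 1 + (i + 1)) = S (m + 1 + i) + r (m + 1 + i + 1) := hS1 _
      rw [h5]
      push_cast at h4 ⊢
      linarith
  obtain ⟨i, rfl⟩ : ∃ i, n = m + 1 + i := ⟨n - (m + 1), by omega⟩
  have h2 := st3 i
  rw [← hS]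
  have h3 : ((2 * ((j + 1 + m) * (m + 1 + i)) : ℕ) : ℤ) ≤
      ((2 * S (m + 1 + i) + (m + 1) * m + (j + 1) * j : ℕ) : ℤ) := by
    push_cast
    linarith
  exact_mod_cast h3

end Pool.Agent.H216.IG.NUM
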