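import Pool.Agent.H216.IG.Stm

set_option autoImplicit false

/-! Proportional polynomials. -/

namespace Pool.Agent.H216.IG.WR

open MvPolynomial Module Pool.Agent.H216.SOS

theorem uni (V W : Polynomial ℂ) (hV : V.eval 0 ≠ 0) (hW : W.eval 0 = 0)
    (h : V * Polynomial.derivative W = W * Polynomial.derivative V) : W = 0 := by
  by_contra hW0
  have hroot : W.IsRoot 0 := hW
  have hm : 0 < W.rootMultiplicity 0 := (Polynomial.rootMultiplicity_pos hW0).2 hroot
  have hd : (Polynomial.derivative W).rootMultiplicity 0 = W.rootMultiplicity 0 - 1 :=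
    Polynomial.derivative_rootMultiplicity_of_root hroot
  have hdW : Polynomial.derivative W ≠ 0 := by
    intro h0
    have h1 := Polynomial.derivative_eq_zero.1 h0
    apply hW0
    rw [Polynomial.eq_C_of_natDegree_eq_zero h1] at hW ⊢
    rw [Polynomial.eval_C] at hW
    rw [hW, Polynomial.C_0]
  have hV0 : V ≠ 0 := by
    rintro rfl
    exact hV Polynomial.eval_zero
  have hne : V * Polynomial.derivative W ≠ 0 := mul_ne_zero hV0 hdW
  have hmul : (V * Polynomial.derivative W).rootMultiplicity 0 = 0 + (W.rootMultiplicity 0 - 1) := by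
    rw [Polynomial.rootMultiplicity_mul hne, Polynomial.rootMultiplicity_eq_zero hV, hd]
  have hdvd : (Polynomial.X - Polynomial.C 0) ^ W.rootMultiplicity 0 ∣
      V * Polynomial.derivative W := by
    rw [h]
    exact dvd_mul_of_dvd_left (Polynomial.pow_rootMultiplicity_dvd W 0) _
  have hle := (Polynomial.le_rootMultiplicity_iff hne).2 hdvd
  omega

/-- restriction to the line through `y0` in the direction `d` -/
noncomputable def line {n : ℕ} (y0 d : Fin n → ℂ) : MvPolynomial (Fin n) ℂ →ₐ[ℂ] Polynomial ℂ :=
  MvPolynomial.aeval fun i => Polynomial.C (y0 i) + Polynomial.C (d i) * Polynomial.X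

theorem eval_line {n : ℕ} (y0 d : Fin n → ℂ) (t : ℂ) (w : MvPolynomial (Fin n) ℂ) :
    Polynomial.eval t (line y0 d w) = MvPolynomial.eval (fun i => y0 i + d i * t) w := by
  induction w using MvPolynomial.induction_on with
  | C a => simp [line]
  | add p q hp hq => rw [map_add, Polynomial.eval_add, map_add, hp, hq]
  | mul_X p i hp =>
    rw [map_mul, Polynomial.eval_mul, map_mul, hp]
    congr 1
    simp [line]

theorem deriv_line {n : ℕ} (y0 d : Fin n → ℂ) (w : MvPolynomial (Fin n) ℂ) :
    Polynomial.derivative (line y0 d w) =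
      ∑ i, Polynomial.C (d i) * line y0 d (pderiv i w) := by
  induction w using MvPolynomial.induction_on with
  | C a => simp [line]
  | add p q hp hq =>
    rw [map_add, Polynomial.derivative_add, hp, hq, ← Finset.sum_add_distrib]
    refine Finset.sum_congr rfl fun i _ => ?_
    rw [map_add, map_add, mul_add]
  | mul_X p j hp =>
    have h1 : ∀ i, line y0 d (pderiv i (p * X j)) = line y0 d (pderiv i p) * line y0 d (X j) +
        line y0 d p * line y0 d (pderiv i (X j)) := by
      intro i
      rw [Derivation.leibniz, smul_eq_mul, smul_eq_mul, map_add, map_mul, map_mul]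
      ring
    have h2 : ∑ i, Polynomial.C (d i) * line y0 d (pderiv i (X j : MvPolynomial (Fin n) ℂ)) =
        Polynomial.C (d j) := by
      rw [Finset.sum_eq_single_of_mem j (Finset.mem_univ j)]
      · rw [pderiv_X_self, map_one, mul_one]
      · intro i _ hij
        rw [pderiv_X_of_ne (Ne.symm hij), map_zero, mul_zero]
    have h3 : Polynomial.derivative (line y0 d (X j)) = Polynomial.C (d j) := by
      simp [line]
    calc Polynomial.derivative (line y0 d (p * X j))
        = Polynomial.derivative (line y0 d p) * line y0 d (X j) +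
          line y0 d p * Polynomial.derivative (line y0 d (X j)) := by
          rw [map_mul, Polynomial.derivative_mul]
      _ = (∑ i, Polynomial.C (d i) * line y0 d (pderiv i p)) * line y0 d (X j) +
          line y0 d p * ∑ i, Polynomial.C (d i) * line y0 d (pderiv i (X j)) := by
          rw [hp, h3, h2]
      _ = _ := by
          rw [Finset.sum_mul, Finset.mul_sum, ← Finset.sum_add_distrib]
          refine Finset.sum_congr rfl fun i _ => ?_
          rw [h1 i]
          ring

theorem t_WR : S_WR := by
  intro n u v hv h
  obtain ⟨y0, hy0⟩ : ∃ y0 : Fin n → ℂ, MvPolynomial.eval y0 v ≠ 0 := by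
    by_contra hcon
    push Not at hcon
    exact hv (MvPolynomial.funext fun y => by rw [hcon y, map_zero])
  set c : ℂ := MvPolynomial.eval y0 u / MvPolynomial.eval y0 v with hc
  refine ⟨c, sub_eq_zero.1 ?_⟩
  set w : MvPolynomial (Fin n) ℂ := u - c • v with hw
  have hwi : ∀ i, v * pderiv i w = w * pderiv i v := by
    intro i
    rw [hw, map_sub, Derivation.map_smul, mul_sub, sub_mul, h i, mul_smul_comm, smul_mul_assoc]
  have hw0 : MvPolynomial.eval y0 w = 0 := by
    rw [hw, map_sub, smul_eval, hc, div_mul_cancel₀ _ hy0, sub_self]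
  refine MvPolynomial.funext fun y => ?_
  rw [map_zero]
  have hV : Polynomial.eval 0 (line y0 (fun i => y i - y0 i) v) ≠ 0 := by
    rw [eval_line]
    simpa using hy0
  have hW : Polynomial.eval 0 (line y0 (fun i => y i - y0 i) w) = 0 := by
    rw [eval_line]
    simpa using hw0
  have hVW : line y0 (fun i => y i - y0 i) v *
      Polynomial.derivative (line y0 (fun i => y i - y0 i) w) =
      line y0 (fun i => y i - y0 i) w *
        Polynomial.derivative (line y0 (fun i => y i - y0 i) v) := by
    rw [deriv_line, deriv_line, Finset.mul_sum, Finset.mul_sum]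
    refine Finset.sum_congr rfl fun i _ => ?_
    have h1 : line y0 (fun i => y i - y0 i) v * line y0 (fun i => y i - y0 i) (pderiv i w) =
        line y0 (fun i => y i - y0 i) w * line y0 (fun i => y i - y0 i) (pderiv i v) := by
      rw [← map_mul, ← map_mul, hwi i]
    rw [mul_left_comm, h1, mul_left_comm]
  have h0 := uni _ _ hV hW hVW
  have h1 := eval_line y0 (fun i => y i - y0 i) 1 w
  rw [h0, Polynomial.eval_zero] at h1
  rw [h1]
  congr 1
  have h2 : (fun i => y0 i + (y i - y0 i) * 1) = y := by
    funext i
    ring
  rw [h2]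

end Pool.Agent.H216.IG.WR
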