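import Pool.Agent.H216.IG.Key
import Pool.Agent.H216.IG.WR
import Pool.Agent.H216.IG.E1
import Pool.Agent.H216.IG.NUM
import Pool.Agent.H216.IG.FLAG
import Pool.Agent.H216.IG.CLQ

set_option autoImplicit false

namespace Pool.Agent.H216.IG.Fin

open MvPolynomial Module Filter Pool.Agent.H216.SOS Pool.Agent.H216.IG

/-- The number of linear syzygies of `k` linearly independent polynomials in `n ≥ k` variables
avoids the gaps `((k-j)(k-j-1) + (j+1)j, (k-j+1)(k-j)) / 2`. -/
theorem syz_gap {n k j : ℕ} (hj : 1 ≤ j) (hk : j * (j + 3) + 2 < 2 * k) (hkn : k ≤ n)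
    (q : Fin k → R n) (hq : LinearIndependent ℂ q)
    (h1 : 2 * (n * k) < 2 * finrank ℂ (SS q) + (k - j + 1) * (k - j)) :
    2 * (n * k) ≤ 2 * finrank ℂ (SS q) + (k - j) * (k - j - 1) + (j + 1) * j := by
  set W := Submodule.span ℂ (Set.range q) with hW
  have : FiniteDimensional ℂ W := FiniteDimensional.span_of_finite ℂ (Set.finite_range _)
  have hWk : finrank ℂ W = k := by
    rw [hW, finrank_span_eq_card hq]
    simp
  have hk1 : 1 ≤ k := by omega
  have hn1 : 1 ≤ n := by omega
  have hmono : Monotone (rk W) := monotone_nat_of_le_succ (rk_mono_succ W)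
  have hrn : rk W n = k := by rw [rk_self, hWk]
  have hle : ∀ b, rk W b ≤ k := fun b => hWk ▸ rk_le W b
  have hstep : ∀ b, rk W b < k → rk W b + 1 ≤ rk W (b + 1) := by
    intro b hb
    by_contra hlt
    have e1 : rk W (b + 1) = rk W b := le_antisymm (by omega) (rk_mono_succ _ _)
    have e2 := H1 W e1 n
    have e3 := hmono (show n ≤ b + n by omega)
    omega
  have hr1 : 1 ≤ rk W 1 := by
    have e1 : rk W 0 < k → rk W 0 + 1 ≤ rk W 1 := hstep 0
    have e3 : rk W 0 ≤ rk W 1 := hmono (show 0 ≤ 1 by omega)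
    by_contra hcon
    omega
  have hno : ∀ a, 1 ≤ a → rk W (a + 1) ≤ rk W a + 1 → rk W a + 3 ≤ k → a + j ≤ rk W a := by
    intro a ha h2 h3
    by_contra hcon
    have han : a < n := by
      by_contra h4
      have := hmono (show n ≤ a by omega)
      omega
    obtain ⟨g, A, hg, hA, hfA⟩ := Key.key WR.t_WR E1.t_E1 W ha han h2 (by omega)
    have h5 := CLQ.t_CLQ n k (k - j + 1) q g A hq hg hA (by omega)
    have e : (k - j + 1) * (k - j + 1 - 1) = (k - j + 1) * (k - j) := by
      rw [Nat.add_sub_cancel]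
    rw [e] at h5
    omega
  have h6 := NUM.t_NUM n k j (rk W) hj hk hkn hr1 hle (rk_mono_succ W)
    (fun b _ hb => hstep b hb) hno
  have h7 := FLAG.t_FLAG n k q
  rw [← hW] at h7
  have h8 : k * n = n * k := mul_comm _ _
  rw [h8] at h6
  omega

end Pool.Agent.H216.IG.Fin
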