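import Pool.Agent.H216.IG.Stm

set_option autoImplicit false

namespace Pool.Agent.H216.IG.Key

open MvPolynomial Module Filter Pool.Agent.H216.SOS Pool.Agent.H216.IG

/-- replace a column -/
def upd {n a : ℕ} (χ : Matrix (Fin n) (Fin a) ℂ) (m : Fin a) (y : Fin n → ℂ) :
    Matrix (Fin n) (Fin a) ℂ := fun i => Function.update (χ i) m (y i)

theorem upd_self {n a : ℕ} (χ : Matrix (Fin n) (Fin a) ℂ) (m : Fin a) :
    upd χ m (fun i => χ i m) = χ := by
  funext i
  exact Function.update_eq_self _ _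

theorem upd_mulVec {n a : ℕ} (χ : Matrix (Fin n) (Fin a) ℂ) (m : Fin a) (y : Fin n → ℂ)
    (t : Fin a → ℂ) :
    (upd χ m y).mulVec t = χ.mulVec (Function.update t m 0) + t m • y := by
  funext i
  simp only [Matrix.mulVec, dotProduct, upd, Pi.add_apply, Pi.smul_apply, smul_eq_mul]
  rw [← Finset.add_sum_erase _ _ (Finset.mem_univ m),
    ← Finset.add_sum_erase Finset.univ (fun j => χ i j * Function.update t m 0 j)
      (Finset.mem_univ m)]
  have h : ∑ x ∈ Finset.univ.erase m, Function.update (χ i) m (y i) x * t x =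
      ∑ x ∈ Finset.univ.erase m, χ i x * Function.update t m 0 x := by
    apply Finset.sum_congr rfl
    intro j hj
    have hne := Finset.ne_of_mem_erase hj
    rw [Function.update_of_ne hne, Function.update_of_ne hne]
  rw [h, Function.update_self, Function.update_self]
  ring

theorem upd_entry {n a : ℕ} (χ : Matrix (Fin n) (Fin a) ℂ) (m : Fin a) (i : Fin n) (j : Fin a) :
    (fun y : Fin n → ℂ => upd χ m y i j) ∈ PolyFun (Fin n → ℂ) := by
  by_cases h : j = m
  · subst h
    have : (fun y : Fin n → ℂ => upd χ j y i j) = fun y => y i := by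
      funext y
      simp [upd]
    rw [this]
    exact coord_mem i
  · have : (fun y : Fin n → ℂ => upd χ m y i j) = fun _ => χ i j := by
      funext y
      simp [upd, Function.update_of_ne h]
    rw [this]
    exact const_mem _

theorem upd_gen {n a : ℕ} (W : Submodule ℂ (R n)) [FiniteDimensional ℂ W]
    {χ : Matrix (Fin n) (Fin a) ℂ} (hχ : finrank ℂ (res W χ) = rk W a) (m : Fin a) :
    ∀ᶠ y in gen (Fin n → ℂ), finrank ℂ (res W (upd χ m y)) = rk W a := by
  refine (rank_open W (fun y => upd χ m y) (fun i j => upd_entry χ m i j)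
    (fun i => χ i m)).mono fun y hy => ?_
  rw [upd_self, hχ] at hy
  exact le_antisymm (le_rk W _) hy

theorem poly_gen {n : ℕ} {P : R n} (hP : P ≠ 0) : ∀ᶠ y in gen (Fin n → ℂ), eval y P ≠ 0 := by
  obtain ⟨x, hx⟩ : ∃ x, eval x P ≠ 0 := by
    by_contra h
    push Not at h
    exact hP (MvPolynomial.funext fun x => by simpa using h x)
  exact gen_of_ne (eval_mem (fun i => coord_mem i) P) hx

/-- the kernel of a restriction -/
noncomputable def K {n a : ℕ} (W : Submodule ℂ (R n)) (χ : Matrix (Fin n) (Fin a) ℂ) :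
    Submodule ℂ (R n) := LinearMap.ker (pb χ).toLinearMap ⊓ W

theorem mem_K {n a : ℕ} {W : Submodule ℂ (R n)} {χ : Matrix (Fin n) (Fin a) ℂ} {u : R n} :
    u ∈ K W χ ↔ pb χ u = 0 ∧ u ∈ W := Iff.rfl

instance {n a : ℕ} (W : Submodule ℂ (R n)) [FiniteDimensional ℂ W]
    (χ : Matrix (Fin n) (Fin a) ℂ) : FiniteDimensional ℂ (K W χ) :=
  Submodule.finiteDimensional_of_le inf_le_right

theorem finrank_K {n a : ℕ} (W : Submodule ℂ (R n)) [FiniteDimensional ℂ W]
    (χ : Matrix (Fin n) (Fin a) ℂ) : finrank ℂ (res W χ) + finrank ℂ (K W χ) = finrank ℂ W :=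
  finrank_res_add_ker W χ

theorem pb_eq_zero {n a : ℕ} {χ : Matrix (Fin n) (Fin a) ℂ} {u : R n}
    (h : ∀ t, eval (χ.mulVec t) u = 0) : pb χ u = 0 := by
  apply MvPolynomial.funext
  intro t
  rw [eval_pb, h, map_zero]

theorem eval_of_pb {n a : ℕ} {χ : Matrix (Fin n) (Fin a) ℂ} {u : R n}
    (h : pb χ u = 0) (t : Fin a → ℂ) : eval (χ.mulVec t) u = 0 := by
  rw [← eval_pb, h, map_zero]

/-- two independent members -/
theorem exists_indep {n : ℕ} (V : Submodule ℂ (R n)) [FiniteDimensional ℂ V]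
    (h : 2 ≤ finrank ℂ V) (u : R n) : ∃ c ∈ V, ∀ t : ℂ, c ≠ t • u := by
  by_contra hcon
  push Not at hcon
  have h1 : V ≤ Submodule.span ℂ {u} := by
    intro c hc
    obtain ⟨t, ht⟩ := hcon c hc
    rw [ht]
    exact Submodule.smul_mem _ _ (Submodule.mem_span_singleton_self u)
  have h2 := Submodule.finrank_mono h1
  have h3 : finrank ℂ (Submodule.span ℂ {u}) ≤ 1 := by
    refine le_trans (finrank_span_le_card (R := ℂ) ({u} : Set (R n))) ?_
    simp
  omega

theorem grad_mul_lin {n : ℕ} (b : Fin n → ℂ) (g : R n) (y : Fin n → ℂ)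
    (h : eval y (lin b) = 0) : grad (lin b * g) y = eval y g • b := by
  funext i
  unfold grad
  rw [Derivation.leibniz]
  have h1 : pderiv i (lin b : R n) = C (b i) := by
    classical
    rw [lin_def, map_sum, Finset.sum_eq_single i]
    · rw [Derivation.leibniz]
      simp
    · intro j _ hj
      rw [Derivation.leibniz]
      simp only [pderiv_X, pderiv_C, add_zero, Pi.single_eq_of_ne hj, smul_eq_mul,
        mul_zero]
    · simp
  rw [h1]
  simp only [smul_eq_mul, map_add, map_mul, h, zero_mul, eval_C, Pi.smul_apply, zero_add]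

section main

variable {n a : ℕ} {W : Submodule ℂ (R n)} [FiniteDimensional ℂ W]

/-- Step 1: a member of the kernel with a non-zero gradient on the subspace. -/
theorem step1 (hWR : S_WR) (hE1 : S_E1) (m : Fin a) {χ : Matrix (Fin n) (Fin a) ℂ}
    (hχ : finrank ℂ (res W χ) = rk W a) (hrk : rk W (a + 1) ≤ rk W a + 1)
    (hk : rk W a + 2 ≤ finrank ℂ W) :
    ∃ χ' : Matrix (Fin n) (Fin a) ℂ, finrank ℂ (res W χ') = rk W a ∧
      ∃ u ∈ K W χ', ∃ x : Fin a → ℂ, grad u (χ'.mulVec x) ≠ 0 := by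
  have hK : 2 ≤ finrank ℂ (K W χ) := by
    have := finrank_K W χ
    omega
  obtain ⟨u₂, hu₂, hu₂0⟩ := exists_indep (K W χ) hK 0
  have hu₂ne : u₂ ≠ 0 := by
    intro h
    exact hu₂0 0 (by rw [h, smul_zero])
  obtain ⟨u₁, hu₁, hind⟩ := exists_indep (K W χ) hK u₂
  -- some Wronskian is non-zero
  obtain ⟨i, hi⟩ : ∃ i, u₂ * pderiv i u₁ - u₁ * pderiv i u₂ ≠ 0 := by
    by_contra hcon
    push Not at hcon
    obtain ⟨c, hc⟩ := hWR n u₁ u₂ hu₂ne (fun i => sub_eq_zero.1 (hcon i))
    exact hind c hc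
  obtain ⟨y, hy1, hy2⟩ := ((upd_gen W hχ m).and (poly_gen hi)).exists
  have hrel := fun z t s => (hE1 n a W χ (by rw [hχ]; exact hrk) u₁ hu₁.2 u₂ hu₂.2 hu₁.1 hu₂.1
    0).2 z t s
  refine ⟨upd χ m y, hy1, eval y u₂ • u₁ - eval y u₁ • u₂, ?_, Pi.single m 1, ?_⟩
  · rw [mem_K]
    refine ⟨pb_eq_zero fun t => ?_, ?_⟩
    · rw [upd_mulVec, map_sub, MvPolynomial.smul_eval, MvPolynomial.smul_eval]
      have := hrel y (Function.update t m 0) (t m)
      linear_combination -this
    · exact W.sub_mem (W.smul_mem _ hu₁.2) (W.smul_mem _ hu₂.2)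
  · have hp : (upd χ m y).mulVec (Pi.single m 1) = y := by
      rw [upd_mulVec]
      have : Function.update (Pi.single m (1 : ℂ)) m 0 = (0 : Fin a → ℂ) := by
        funext j
        by_cases h : j = m
        · subst h
          simp
        · simp [Function.update_of_ne h, Pi.single_eq_of_ne h]
      rw [this, Matrix.mulVec_zero, zero_add, Pi.single_eq_same, one_smul]
    rw [hp]
    intro h0
    apply hy2
    have := congrFun h0 i
    unfold grad at this
    rw [map_sub, Derivation.map_smul, Derivation.map_smul, map_sub, MvPolynomial.smul_eval,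
      MvPolynomial.smul_eval] at this
    rw [map_sub, map_mul, map_mul]
    simpa using this

/-- Step 2: the kernel is contained in the multiples of one polynomial. -/
theorem step2 (hE1 : S_E1) (hn : n ≠ 0) {χ : Matrix (Fin n) (Fin a) ℂ}
    (hχ : finrank ℂ (res W χ) = rk W a) (hrk : rk W (a + 1) ≤ rk W a + 1)
    (hk : rk W a + 2 ≤ finrank ℂ W) {u : R n} (hu : u ∈ K W χ) {x : Fin a → ℂ}
    (hx : grad u (χ.mulVec x) ≠ 0) : ∃ g : R n, g ≠ 0 ∧ K W χ ≤ S1 g := by
  obtain ⟨n, rfl⟩ : ∃ n', n = n' + 1 := ⟨n - 1, by omega⟩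
  have hK : 2 ≤ finrank ℂ (K W χ) := by
    have := finrank_K W χ
    omega
  have hrel : ∀ c ∈ K W χ, lin (grad u (χ.mulVec x)) * c = lin (grad c (χ.mulVec x)) * u :=
    fun c hc => (hE1 (n + 1) a W χ (by rw [hχ]; exact hrk) u hu.2 c hc.2 hu.1 hc.1 x).1
  set l := grad u (χ.mulVec x) with hl
  have hl0 := lin_ne_zero hx
  have hu0 : u ≠ 0 := by
    rintro rfl
    apply hx
    funext i
    simp [hl, grad]
  obtain ⟨c, hc, hind⟩ := exists_indep (K W χ) hK u
  have h1 : lin l ∣ lin (grad c (χ.mulVec x)) * u := ⟨c, (hrel c hc).symm⟩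
  rcases lin_prime hx h1 with h2 | h2
  · exfalso
    obtain ⟨τ, hτ⟩ := lin_dvd_lin hx h2
    apply hind τ
    have h3 := hrel c hc
    rw [hτ, lin_smul, smul_mul_assoc, ← mul_smul_comm] at h3
    exact mul_left_cancel₀ hl0 h3
  · obtain ⟨g, hg⟩ := h2
    refine ⟨g, ?_, ?_⟩
    · rintro rfl
      apply hu0
      rw [hg, mul_zero]
    · intro w hw
      rw [mem_S1]
      refine ⟨grad w (χ.mulVec x), ?_⟩
      have h3 := hrel w hw
      apply mul_left_cancel₀ hl0
      rw [h3]
      conv_rhs => rw [hg]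
      ring

/-- Step 3: neighbours -/
theorem step3 (hE1 : S_E1) {χ : Matrix (Fin n) (Fin a) ℂ}
    (hrk : rk W (a + 1) ≤ rk W a + 1)
    (hk : rk W a + 2 ≤ finrank ℂ W) {g : R n} (hg : K W χ ≤ S1 g) (m : Fin a)
    {y : Fin n → ℂ} (hy : finrank ℂ (res W (upd χ m y)) = rk W a) (hgy : eval y g ≠ 0) :
    K W (upd χ m y) ≤ S1 g := by
  -- a non-zero element vanishing on the sum
  let φ : Matrix (Fin n) (Fin (a + 1)) ℂ := fun i => Fin.snoc (α := fun _ => ℂ) (χ i) (y i)
  have hφ : ∀ t s, φ.mulVec (Fin.snoc (α := fun _ => ℂ) t s) = χ.mulVec t + s • y := by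
    intro t s
    funext i
    simp only [Matrix.mulVec, dotProduct, φ, Fin.sum_univ_castSucc, Fin.snoc_castSucc,
      Fin.snoc_last, Pi.add_apply, Pi.smul_apply, smul_eq_mul]
    ring
  have hKφ : 1 ≤ finrank ℂ (K W φ) := by
    have h1 := finrank_K W φ
    have h2 := le_rk W φ
    omega
  obtain ⟨c, hc, hc0⟩ := Submodule.exists_mem_ne_zero_of_ne_bot (p := K W φ) (by
    intro h
    rw [h, finrank_bot] at hKφ
    omega)
  have hcev : ∀ t s, eval (χ.mulVec t + s • y) c = 0 := fun t s => by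
    rw [← hφ]
    exact eval_of_pb hc.1 _
  have hc1 : c ∈ K W χ := ⟨pb_eq_zero fun t => by simpa using hcev t 0, hc.2⟩
  have hc2 : c ∈ K W (upd χ m y) := ⟨pb_eq_zero fun t => by
    rw [upd_mulVec]
    exact hcev _ _, hc.2⟩
  obtain ⟨b, hb⟩ := hg hc1
  change lin b * g = c at hb
  have hcy : eval y c = 0 := by
    have := hcev 0 1
    simpa using this
  have hby : eval y (lin b) = 0 := by
    rw [← hb, map_mul] at hcy
    exact (mul_eq_zero.1 hcy).resolve_right hgy
  have hb0 : b ≠ 0 := by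
    rintro rfl
    apply hc0
    rw [← hb, lin_zero, zero_mul]
  have hp : (upd χ m y).mulVec (Pi.single m 1) = y := by
    rw [upd_mulVec]
    have : Function.update (Pi.single m (1 : ℂ)) m 0 = (0 : Fin a → ℂ) := by
      funext j
      by_cases h : j = m
      · subst h
        simp
      · simp [Function.update_of_ne h, Pi.single_eq_of_ne h]
    rw [this, Matrix.mulVec_zero, zero_add, Pi.single_eq_same, one_smul]
  intro w hw
  have h1 := (hE1 n a W (upd χ m y) (by rw [hy]; exact hrk) w hw.2 c hc.2 hw.1 hc2.1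
    (Pi.single m 1)).1
  rw [hp] at h1
  have h2 : grad c y = eval y g • b := by
    rw [← hb]
    exact grad_mul_lin b g y hby
  rw [h2, ← hb, lin_smul, smul_mul_assoc, ← mul_smul_comm] at h1
  have h3 : lin (grad w y) * g = eval y g • w := by
    apply mul_left_cancel₀ (lin_ne_zero hb0)
    rw [← h1]
    ring
  rw [mem_S1]
  refine ⟨(eval y g)⁻¹ • grad w y, ?_⟩
  rw [lin_smul, smul_mul_assoc, h3, smul_smul, inv_mul_cancel₀ hgy, one_smul]

/-- Step 4: the dimension of the clique -/
theorem step4 (hE1 : S_E1) {χ : Matrix (Fin n) (Fin a) ℂ}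
    (hχ : finrank ℂ (res W χ) = rk W a) (hrk : rk W (a + 1) ≤ rk W a + 1)
    (hk : rk W a + 2 ≤ finrank ℂ W) {g : R n} (hg0 : g ≠ 0) (hg : K W χ ≤ S1 g)
    (hχg : pb χ g ≠ 0) :
    ∃ A : Submodule ℂ (Fin n → ℂ), (∀ b ∈ A, lin b * g ∈ W) ∧
      a + (finrank ℂ W - rk W a) ≤ finrank ℂ A := by
  let Φ : (Fin n → ℂ) →ₗ[ℂ] R n := (LinearMap.mulRight ℂ g).comp (linL n)
  have hΦ : ∀ b, Φ b = lin b * g := fun _ => rfl
  have hΦinj : Function.Injective Φ := by
    intro b c h
    exact lin_injective (mul_right_cancel₀ hg0 h)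
  let A : Submodule ℂ (Fin n → ℂ) := W.comap Φ
  have hA : ∀ b, b ∈ A ↔ lin b * g ∈ W := fun _ => Iff.rfl
  refine ⟨A, fun b hb => hb, ?_⟩
  let T : A →ₗ[ℂ] (Fin a → ℂ) := (Matrix.vecMulLinear χ).domRestrict A
  have hT : ∀ b : A, T b = Matrix.vecMul b.1 χ := fun _ => rfl
  -- the kernel
  have hker : finrank ℂ (K W χ) ≤ finrank ℂ (LinearMap.ker T) := by
    let Ψ : LinearMap.ker T →ₗ[ℂ] R n := Φ.comp (A.subtype.comp (LinearMap.ker T).subtype)
    have hle : K W χ ≤ LinearMap.range Ψ := by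
      intro w hw
      obtain ⟨b, hb⟩ := hg hw
      change lin b * g = w at hb
      have hbA : b ∈ A := by
        rw [hA, hb]
        exact hw.2
      refine ⟨⟨⟨b, hbA⟩, ?_⟩, hb⟩
      rw [LinearMap.mem_ker, hT]
      have h1 : pb χ w = 0 := hw.1
      rw [← hb, map_mul, pb_lin] at h1
      have h2 := (mul_eq_zero.1 h1).resolve_right hχg
      by_contra h3
      exact lin_ne_zero h3 h2
    exact le_trans (Submodule.finrank_mono hle) (LinearMap.finrank_range_le Ψ)
  -- the range
  have hrange : LinearMap.range T = ⊤ := by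
    by_contra hne
    obtain ⟨L, hL0, hL⟩ := Submodule.exists_le_ker_of_lt_top _ (lt_top_iff_ne_top.2 hne)
    obtain ⟨m, hm⟩ : ∃ m, L (Pi.single m 1) ≠ 0 := by
      by_contra hcon
      push Not at hcon
      apply hL0
      apply LinearMap.pi_ext'
      intro i
      ext
      simpa using hcon i
    have hLsum : ∀ f : Fin a → ℂ, L f = ∑ i, f i * L (Pi.single i 1) := by
      intro f
      have h2 : f = ∑ i, f i • (Pi.single i 1 : Fin a → ℂ) := by
        funext j
        simp [Finset.sum_apply, Pi.single_apply]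
      conv_lhs => rw [h2]
      rw [map_sum]
      simp
    have hKpos : 2 ≤ finrank ℂ (K W χ) := by
      have := finrank_K W χ
      omega
    obtain ⟨u, hu, hu0⟩ := exists_indep (K W χ) hKpos 0
    have hune : u ≠ 0 := by
      intro h
      exact hu0 0 (by rw [h, smul_zero])
    obtain ⟨y, ⟨hy1, hy2⟩, hy3⟩ := (((upd_gen W hχ m).and (poly_gen hg0)).and
      (poly_gen hune)).exists
    have hS := step3 hE1 hrk hk hg m hy1 hy2
    have hp : (upd χ m y).mulVec (Pi.single m 1) = y := by
      rw [upd_mulVec]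
      have : Function.update (Pi.single m (1 : ℂ)) m 0 = (0 : Fin a → ℂ) := by
        funext j
        by_cases h : j = m
        · subst h
          simp
        · simp [Function.update_of_ne h, Pi.single_eq_of_ne h]
      rw [this, Matrix.mulVec_zero, zero_add, Pi.single_eq_same, one_smul]
    have hpb : pb (upd χ m y) g ≠ 0 := by
      intro h
      apply hy2
      rw [← hp]
      exact eval_of_pb h _
    have hle : K W (upd χ m y) ≤ K W χ := by
      intro w hw
      obtain ⟨b, hb⟩ := hS hw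
      change lin b * g = w at hb
      have hbA : b ∈ A := by
        rw [hA, hb]
        exact hw.2
      have h1 : pb (upd χ m y) w = 0 := hw.1
      rw [← hb, map_mul, pb_lin] at h1
      have h2 := (mul_eq_zero.1 h1).resolve_right hpb
      have h3 : Matrix.vecMul b (upd χ m y) = 0 := by
        by_contra h3
        exact lin_ne_zero h3 h2
      have h4 : ∀ i, i ≠ m → Matrix.vecMul b χ i = 0 := by
        intro i hi
        have := congrFun h3 i
        simp only [Matrix.vecMul, dotProduct, upd, Function.update_of_ne hi] at this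
        exact this
      have h5 : L (Matrix.vecMul b χ) = 0 := by
        have := hL ⟨⟨b, hbA⟩, rfl⟩
        exact this
      have h6 : Matrix.vecMul b χ m = 0 := by
        rw [hLsum, Finset.sum_eq_single m] at h5
        · exact (mul_eq_zero.1 h5).resolve_right hm
        · intro i _ hi
          rw [h4 i hi, zero_mul]
        · simp
      have h7 : Matrix.vecMul b χ = 0 := by
        funext i
        by_cases hi : i = m
        · subst hi
          exact h6
        · exact h4 i hi
      rw [mem_K]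
      refine ⟨?_, hw.2⟩
      rw [← hb, map_mul, pb_lin, h7, lin_zero, zero_mul]
    have heq : K W (upd χ m y) = K W χ := by
      apply Submodule.eq_of_le_of_finrank_le hle
      have e1 := finrank_K W χ
      have e2 := finrank_K W (upd χ m y)
      omega
    apply hy3
    rw [← hp]
    rw [← heq] at hu
    exact eval_of_pb hu.1 _
  have h1 := LinearMap.finrank_range_add_finrank_ker T
  rw [hrange, finrank_top] at h1
  have h2 := finrank_K W χ
  simp only [Module.finrank_fintype_fun_eq_card, Fintype.card_fin] at h1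
  omega

end main

theorem key (hWR : S_WR) (hE1 : S_E1) {n a : ℕ} (W : Submodule ℂ (R n)) [FiniteDimensional ℂ W]
    (ha : 1 ≤ a) (han : a < n) (hrk : rk W (a + 1) ≤ rk W a + 1)
    (hk : rk W a + 2 ≤ finrank ℂ W) :
    ∃ (g : R n) (A : Submodule ℂ (Fin n → ℂ)), g ≠ 0 ∧ (∀ b ∈ A, lin b * g ∈ W) ∧
      a + (finrank ℂ W - rk W a) ≤ finrank ℂ A := by
  let m : Fin a := ⟨0, ha⟩
  obtain ⟨χ₀, hχ₀⟩ := exists_rk W a
  obtain ⟨χ, hχ, u, hu, x, hx⟩ := step1 hWR hE1 m hχ₀ hrk hk
  obtain ⟨g, hg0, hg⟩ := step2 hE1 (by omega) hχ hrk hk hu hx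
  obtain ⟨y, hy1, hy2⟩ := ((upd_gen W hχ m).and (poly_gen hg0)).exists
  have hg' := step3 hE1 hrk hk hg m hy1 hy2
  have hp : (upd χ m y).mulVec (Pi.single m 1) = y := by
    rw [upd_mulVec]
    have : Function.update (Pi.single m (1 : ℂ)) m 0 = (0 : Fin a → ℂ) := by
      funext j
      by_cases h : j = m
      · subst h
        simp
      · simp [Function.update_of_ne h, Pi.single_eq_of_ne h]
    rw [this, Matrix.mulVec_zero, zero_add, Pi.single_eq_same, one_smul]
  obtain ⟨A, hA1, hA2⟩ := step4 hE1 hy1 hrk hk hg0 hg' (by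
    intro h
    apply hy2
    rw [← hp]
    exact eval_of_pb h _)
  exact ⟨g, A, hg0, hA1, hA2⟩

end Pool.Agent.H216.IG.Key
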