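import Pool.Agent.H216.IG.Stm2

set_option autoImplicit false

namespace Pool.Agent.H216.IG.MULTI

open Pool.Agent.H216.SOS

/-- the pairs of a star -/
def P (n t : ℕ) : Finset (Fin n × Fin n) :=
  Finset.univ.filter fun p => 1 ≤ p.1.1 ∧ p.1.1 ≤ t ∧ p.1 ≤ p.2

theorem sum_aux (n : ℕ) : ∀ t, t + 1 ≤ n →
    2 * ∑ i ∈ Finset.range t, (n - (i + 1)) + t * (t + 1) = 2 * (t * n) := by
  intro t
  induction t with
  | zero => simp
  | succ t ih =>
    intro ht
    have h1 := ih (by omega)
    rw [Finset.sum_range_succ]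
    obtain ⟨d, rfl⟩ : ∃ d, n = t + 1 + d := ⟨n - (t + 1), by omega⟩
    have e : t + 1 + d - (t + 1) = d := by omega
    rw [e]
    nlinarith

theorem card_P {n t : ℕ} (ht : t + 1 ≤ n) : 2 * (P n t).card + t * (t + 1) = 2 * (t * n) := by
  classical
  have e1 : (P n t).card = ∑ i ∈ Finset.range t, (n - (i + 1)) := by
    have h1 : P n t = (Finset.univ : Finset (Fin t)).biUnion fun i =>
        (Finset.Ici (⟨i.1 + 1, by have := i.2; omega⟩ : Fin n)).image fun k =>
          ((⟨i.1 + 1, by have := i.2; omega⟩ : Fin n), k) := by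
      ext p
      unfold P
      simp only [Finset.mem_filter, Finset.mem_univ, true_and, Finset.mem_biUnion,
        Finset.mem_image, Finset.mem_Ici]
      constructor
      · rintro ⟨h2, h3, h4⟩
        refine ⟨⟨p.1.1 - 1, by omega⟩, p.2, ?_, ?_⟩
        · have h5 : (⟨p.1.1 - 1 + 1, by have := p.1.2; omega⟩ : Fin n) = p.1 :=
            Fin.ext (by simp only; omega)
          simp only
          rw [h5]
          exact h4
        · refine Prod.ext (Fin.ext ?_) rfl
          simp only
          omega
      · rintro ⟨i, k, h2, rfl⟩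
        have := i.2
        exact ⟨by simp only; omega, by simp only; omega, h2⟩
    rw [h1, Finset.card_biUnion]
    · rw [← Fin.sum_univ_eq_sum_range (fun i => n - (i + 1)) t]
      refine Finset.sum_congr rfl fun i _ => ?_
      rw [Finset.card_image_of_injective _ (fun a b h => (Prod.ext_iff.1 h).2), Fin.card_Ici]
    · intro i _ j _ hij
      rw [Function.onFun, Finset.disjoint_left]
      intro p hp hp'
      obtain ⟨k, _, rfl⟩ := Finset.mem_image.1 hp
      obtain ⟨l, _, hl⟩ := Finset.mem_image.1 hp'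
      have h2 := (Prod.ext_iff.1 hl).1
      have h3 : j.1 + 1 = i.1 + 1 := congrArg Fin.val h2
      exact hij (Fin.ext (by omega))
  rw [e1]
  exact sum_aux n t ht

/-- one more star -/
theorem step {N t : ℕ} (ht : t + 1 ≤ N + 2) (ht0 : 1 ≤ t) {M : Finset (Fin (N + 2) →₀ ℕ)} {r : ℕ}
    (hM : Finsupp.single 1 r ∈ M) :
    ∃ (M' : Finset (Fin (N + 2) →₀ ℕ)), Finsupp.single 1 (r + 1) ∈ M' ∧
      (TT M').card = (TT M).card + (P (N + 2) t).card := by
  classical
  obtain ⟨c, hc⟩ : ∃ c : Fin (N + 2) →₀ ℕ, c = Finsupp.single 1 r := ⟨_, rfl⟩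
  rw [← hc] at hM
  obtain ⟨z, hz⟩ : ∃ z : Fin (N + 2) →₀ ℕ, z = Finsupp.single 0 1 := ⟨_, rfl⟩
  have h10 : (1 : Fin (N + 2)) ≠ 0 := by
    intro h
    have := congrArg Fin.val h
    simp at this
  have hv1 : ((1 : Fin (N + 2)) : ℕ) = 1 := by simp
  have hv0 : ∀ i : Fin (N + 2), i ≠ 0 → 1 ≤ i.1 := fun i hi =>
    Nat.one_le_iff_ne_zero.2 fun h => hi (Fin.ext h)
  refine ⟨M.image (fun s => z + s) ∪
    ((Finset.univ.filter fun i : Fin (N + 2) => i.1 ≤ t).image fun i => c + Finsupp.single i 1),
    ?_, ?_⟩
  · refine Finset.mem_union_right _ (Finset.mem_image.2 ⟨1, ?_, ?_⟩)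
    · rw [Finset.mem_filter, hv1]
      exact ⟨Finset.mem_univ _, ht0⟩
    · rw [hc, ← Finsupp.single_add]
  · have h1 : TT (M.image (fun s => z + s) ∪
        ((Finset.univ.filter fun i : Fin (N + 2) => i.1 ≤ t).image
          fun i => c + Finsupp.single i 1)) =
        (TT M).image (fun s => z + s) ∪ (P (N + 2) t).image
          (fun p => c + Finsupp.single p.1 1 + Finsupp.single p.2 1) := by
      ext x
      rw [mem_TT, Finset.mem_union]
      constructor
      · rintro ⟨s, hs, k, rfl⟩
        rcases Finset.mem_union.1 hs with hs | hs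
        · obtain ⟨s', hs', rfl⟩ := Finset.mem_image.1 hs
          exact Or.inl (Finset.mem_image.2 ⟨s' + Finsupp.single k 1, mem_TT.2 ⟨s', hs', k, rfl⟩,
            (add_assoc _ _ _).symm⟩)
        · obtain ⟨i, hi, rfl⟩ := Finset.mem_image.1 hs
          have hi' := (Finset.mem_filter.1 hi).2
          by_cases hi0 : i = 0
          · refine Or.inl (Finset.mem_image.2 ⟨c + Finsupp.single k 1,
              mem_TT.2 ⟨c, hM, k, rfl⟩, ?_⟩)
            rw [hi0, hz]
            abel
          by_cases hk0 : k = 0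
          · refine Or.inl (Finset.mem_image.2 ⟨c + Finsupp.single i 1,
              mem_TT.2 ⟨c, hM, i, rfl⟩, ?_⟩)
            rw [hk0, hz]
            abel
          have hi1 := hv0 i hi0
          have hk1 := hv0 k hk0
          rcases le_total i k with hik | hki
          · refine Or.inr (Finset.mem_image.2 ⟨(i, k), ?_, rfl⟩)
            exact Finset.mem_filter.2 ⟨Finset.mem_univ _, hi1, hi', hik⟩
          · refine Or.inr (Finset.mem_image.2 ⟨(k, i), ?_, ?_⟩)
            · have hki' : k.1 ≤ i.1 := hki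
              exact Finset.mem_filter.2 ⟨Finset.mem_univ _, hk1, hki'.trans hi', hki⟩
            · show c + Finsupp.single k 1 + Finsupp.single i 1 =
                c + Finsupp.single i 1 + Finsupp.single k 1
              abel
      · rintro (hx | hx)
        · obtain ⟨y, hy, rfl⟩ := Finset.mem_image.1 hx
          obtain ⟨s, hs, k, rfl⟩ := mem_TT.1 hy
          exact ⟨z + s, Finset.mem_union_left _ (Finset.mem_image.2 ⟨s, hs, rfl⟩), k,
            add_assoc _ _ _⟩
        · obtain ⟨p, hp, rfl⟩ := Finset.mem_image.1 hx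
          have hp' := (Finset.mem_filter.1 hp).2
          exact ⟨c + Finsupp.single p.1 1, Finset.mem_union_right _ (Finset.mem_image.2
            ⟨p.1, Finset.mem_filter.2 ⟨Finset.mem_univ _, hp'.2.1⟩, rfl⟩), p.2, rfl⟩
    rw [h1, Finset.card_union_of_disjoint, Finset.card_image_of_injective _
      (add_right_injective z), Finset.card_image_of_injOn]
    · intro p hp q hq hpq
      have hp' := (Finset.mem_filter.1 (Finset.mem_coe.1 hp)).2
      have hq' := (Finset.mem_filter.1 (Finset.mem_coe.1 hq)).2
      have h2 : Finsupp.single p.1 1 + Finsupp.single p.2 (1 : ℕ) =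
          Finsupp.single q.1 1 + Finsupp.single q.2 1 := by
        have h3 : c + Finsupp.single p.1 1 + Finsupp.single p.2 1 =
          c + Finsupp.single q.1 1 + Finsupp.single q.2 1 := hpq
        rw [add_assoc, add_assoc] at h3
        exact add_left_cancel h3
      rw [Finsupp.single_add_single_eq_single_add_single one_ne_zero one_ne_zero] at h2
      rcases h2 with h2 | h2 | h2
      · exact Prod.ext h2.1 h2.2
      · obtain ⟨_, h3, h4⟩ := h2
        have h5 := hp'.2.2
        have h6 := hq'.2.2
        rw [h3, h4] at h5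
        have h7 : q.1 = q.2 := le_antisymm h6 h5
        exact Prod.ext (h3.trans h7.symm) (h4.trans h7)
      · exact absurd h2.1 (by norm_num)
    · rw [Finset.disjoint_left]
      intro x hx hx'
      obtain ⟨y, _, rfl⟩ := Finset.mem_image.1 hx
      obtain ⟨p, hp, hpx⟩ := Finset.mem_image.1 hx'
      have hp' := (Finset.mem_filter.1 hp).2
      have h2 := DFunLike.congr_fun hpx 0
      have h3 : (0 : Fin (N + 2)) ≠ p.1 := by
        intro h
        have := hp'.1
        rw [← h] at this
        simp at this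
      have h4 : (0 : Fin (N + 2)) ≠ p.2 := by
        intro h
        have h5 : p.1.1 ≤ p.2.1 := hp'.2.2
        have h6 := hp'.1
        rw [← h] at h5
        simp at h5
        omega
      rw [hc, hz, Finsupp.add_apply, Finsupp.add_apply, Finsupp.add_apply,
        Finsupp.single_eq_of_ne h10.symm, Finsupp.single_eq_of_ne h3, Finsupp.single_eq_of_ne h4,
        Finsupp.single_eq_same] at h2
      omega

theorem main {N : ℕ} (ts : List ℕ) (h : ∀ t ∈ ts, t + 1 ≤ N + 2) :
    ∃ (M : Finset (Fin (N + 2) →₀ ℕ)) (r : ℕ), Finsupp.single 1 r ∈ M ∧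
      2 * (TT M).card + (ts.map fun t => t * (t + 1)).sum = 2 * ((N + 2) * (1 + ts.sum)) := by
  classical
  induction ts with
  | nil =>
    refine ⟨{0}, 0, ?_, ?_⟩
    · rw [Finsupp.single_zero]
      exact Finset.mem_singleton_self _
    · have h1 : TT ({0} : Finset (Fin (N + 2) →₀ ℕ)) =
          Finset.univ.image fun k => Finsupp.single k 1 := by
        ext x
        rw [mem_TT, Finset.mem_image]
        constructor
        · rintro ⟨s, hs, k, rfl⟩
          rw [Finset.mem_singleton] at hs
          exact ⟨k, Finset.mem_univ _, by rw [hs, zero_add]⟩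
        · rintro ⟨k, _, rfl⟩
          exact ⟨0, Finset.mem_singleton_self _, k, zero_add _⟩
      rw [h1, Finset.card_image_of_injective]
      · simp
      · intro k l hkl
        exact (Finsupp.single_left_inj one_ne_zero).1 hkl
  | cons t ts ih =>
    obtain ⟨M, r, hM, hc⟩ := ih fun s hs => h s (List.mem_cons_of_mem _ hs)
    have ht := h t List.mem_cons_self
    rcases Nat.eq_zero_or_pos t with rfl | ht0
    · refine ⟨M, r, hM, ?_⟩
      simpa using hc
    · obtain ⟨M', hM', hc'⟩ := step ht ht0 hM
      refine ⟨M', r + 1, hM', ?_⟩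
      have h1 := card_P ht
      rw [List.map_cons, List.sum_cons, List.sum_cons, hc']
      have e : 2 * ((N + 2) * (1 + (t + ts.sum))) =
          2 * ((N + 2) * (1 + ts.sum)) + 2 * (t * (N + 2)) := by ring
      rw [e, ← hc, ← h1]
      ring

theorem t_MULTI : S_MULTI := by
  intro n ts m hn h hm
  obtain ⟨N, rfl⟩ : ∃ N, n = N + 2 := ⟨n - 2, by omega⟩
  obtain ⟨M, r, _, hc⟩ := main ts h
  exact ⟨M, by omega⟩

end Pool.Agent.H216.IG.MULTI
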