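import Pool.Agent.H216.IG.Stm3

set_option autoImplicit false

namespace Pool.Agent.H216.IG.SIX

open Pool.Agent.H216.SOS

theorem card_ge {n j : ℕ} (hj : j ≤ n) :
    (Finset.univ.filter fun l : Fin n => j ≤ l.1).card + j = n := by
  rcases Nat.lt_or_ge j n with h | h
  · have e : (Finset.univ.filter fun l : Fin n => j ≤ l.1) = Finset.Ici (⟨j, h⟩ : Fin n) := by
      ext k
      simp [Fin.le_def]
    rw [e, Fin.card_Ici]
    simp only
    omega
  · have e : (Finset.univ.filter fun l : Fin n => j ≤ l.1) = ∅ := by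
      ext k
      have := k.2
      simp
      omega
    rw [e]
    simp
    omega

/-- a further member -/
theorem ins {n : ℕ} {M : Finset (Fin n →₀ ℕ)} {w : Fin n →₀ ℕ} {j : ℕ} (hj : j ≤ n)
    (h1 : ∀ l : Fin n, l.1 < j → w + Finsupp.single l 1 ∈ TT M)
    (h2 : ∀ l : Fin n, j ≤ l.1 → w + Finsupp.single l 1 ∉ TT M) :
    (TT (insert w M)).card + j = (TT M).card + n := by
  classical
  have e : TT (insert w M) = TT M ∪ ((Finset.univ.filter fun l : Fin n => j ≤ l.1).image
      fun l => w + Finsupp.single l 1) := by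
    ext t
    rw [Finset.mem_union, mem_TT]
    constructor
    · rintro ⟨s, hs, k, rfl⟩
      rcases Finset.mem_insert.1 hs with rfl | hs
      · by_cases hk : k.1 < j
        · exact Or.inl (h1 k hk)
        · exact Or.inr (Finset.mem_image.2 ⟨k, Finset.mem_filter.2 ⟨Finset.mem_univ _, by omega⟩,
            rfl⟩)
      · exact Or.inl (mem_TT.2 ⟨s, hs, k, rfl⟩)
    · rintro (h | h)
      · obtain ⟨s, hs, k, rfl⟩ := mem_TT.1 h
        exact ⟨s, Finset.mem_insert_of_mem hs, k, rfl⟩
      · obtain ⟨k, -, rfl⟩ := Finset.mem_image.1 h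
        exact ⟨w, Finset.mem_insert_self _ _, k, rfl⟩
  have h3 := card_ge hj
  rw [e, Finset.card_union_of_disjoint, Finset.card_image_of_injective]
  · omega
  · intro k l hkl
    have h3 : Finsupp.single k 1 = Finsupp.single l (1 : ℕ) := add_left_cancel hkl
    exact (Finsupp.single_left_inj one_ne_zero).1 h3
  · rw [Finset.disjoint_left]
    intro t ht ht'
    obtain ⟨l, hl, rfl⟩ := Finset.mem_image.1 ht'
    exact h2 l (Finset.mem_filter.1 hl).2 ht

/-- the star -/
noncomputable def St (n : ℕ) (a : Fin n) (c : ℕ) : Finset (Fin n →₀ ℕ) :=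
  (Finset.univ.filter fun i : Fin n => i.1 < c).image
    fun i => Finsupp.single a 2 + Finsupp.single i 1

theorem mem_TT_St {n : ℕ} {a : Fin n} {c : ℕ} {t : Fin n →₀ ℕ} : t ∈ TT (St n a c) ↔
    ∃ i : Fin n, i.1 < c ∧ ∃ k, Finsupp.single a 2 + Finsupp.single i 1 + Finsupp.single k 1 = t := by
  classical
  rw [mem_TT]
  unfold St
  constructor
  · rintro ⟨s, hs, k, rfl⟩
    obtain ⟨i, hi, rfl⟩ := Finset.mem_image.1 hs
    exact ⟨i, (Finset.mem_filter.1 hi).2, k, rfl⟩
  · rintro ⟨i, hi, k, rfl⟩
    exact ⟨_, Finset.mem_image.2 ⟨i, Finset.mem_filter.2 ⟨Finset.mem_univ _, hi⟩, rfl⟩, k, rfl⟩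

theorem card_St (n : ℕ) (a : Fin n) : ∀ c, c ≤ n → 2 * (TT (St n a c)).card + c * (c - 1) = 2 * (n * c) := by
  intro c
  induction c with
  | zero =>
    intro _
    have e : TT (St n a 0) = ∅ := by
      ext t
      rw [mem_TT_St]
      simp
    rw [e]
    simp
  | succ c ih =>
    intro hc
    have h1 := ih (by omega)
    have e : St n a (c + 1) = insert (Finsupp.single a 2 + Finsupp.single ⟨c, hc⟩ 1) (St n a c) := by
      ext t
      unfold St
      rw [Finset.mem_insert, Finset.mem_image, Finset.mem_image]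
      constructor
      · rintro ⟨i, hi, rfl⟩
        have hi2 := (Finset.mem_filter.1 hi).2
        by_cases hic : i.1 < c
        · exact Or.inr ⟨i, Finset.mem_filter.2 ⟨Finset.mem_univ _, hic⟩, rfl⟩
        · have h3 : i = ⟨c, hc⟩ := Fin.ext (by simp only; omega)
          left
          rw [h3]
      · rintro (h | ⟨i, hi, rfl⟩)
        · exact ⟨⟨c, hc⟩, Finset.mem_filter.2 ⟨Finset.mem_univ _, by simp⟩, h.symm⟩
        · have hi2 := (Finset.mem_filter.1 hi).2
          exact ⟨i, Finset.mem_filter.2 ⟨Finset.mem_univ _, by omega⟩, rfl⟩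
    have h2 : (TT (insert (Finsupp.single a 2 + Finsupp.single ⟨c, hc⟩ 1) (St n a c))).card + c =
        (TT (St n a c)).card + n := by
      apply ins (by omega)
      · intro l hl
        rw [mem_TT_St]
        refine ⟨l, hl, ⟨c, hc⟩, ?_⟩
        abel
      · intro l hl hmem
        rw [mem_TT_St] at hmem
        obtain ⟨i, hi, k, hk⟩ := hmem
        rw [add_assoc, add_assoc] at hk
        have h3 := add_left_cancel hk
        rw [Finsupp.single_add_single_eq_single_add_single one_ne_zero one_ne_zero] at h3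
        rcases h3 with h3 | h3 | h3
        · have := congrArg Fin.val h3.1
          simp only at this
          omega
        · have := congrArg Fin.val h3.2.1
          omega
        · exact absurd h3.1 (by norm_num)
    rw [e]
    rcases c with _ | c
    · simp at h1 h2 ⊢
      omega
    · simp only [Nat.add_sub_cancel] at h1 ⊢
      nlinarith

theorem t_SIX : S_SIX := by
  intro n c m hc hcn hm
  obtain ⟨a, ha⟩ : ∃ a : Fin n, a.1 = 0 := ⟨⟨0, by omega⟩, rfl⟩
  obtain ⟨b, hb⟩ : ∃ b : Fin n, b.1 = 1 := ⟨⟨1, by omega⟩, rfl⟩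
  obtain ⟨d, hd⟩ : ∃ d : Fin n, d.1 = 2 := ⟨⟨2, by omega⟩, rfl⟩
  have hab : a ≠ b := fun h => by rw [h] at ha; omega
  have had : a ≠ d := fun h => by rw [h] at ha; omega
  have hbd : b ≠ d := fun h => by rw [h] at hb; omega
  have hla : ∀ l : Fin n, 1 ≤ l.1 → l ≠ a := fun l hl h => by rw [h] at hl; omega
  have hlb : ∀ l : Fin n, 2 ≤ l.1 → l ≠ b := fun l hl h => by rw [h] at hl; omega
  have h0 := card_St n a c hcn
  -- the members of the star have exponent at least 2 at `a`
  have hexp : ∀ t ∈ TT (St n a c), 2 ≤ t a := by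
    intro t ht
    rw [mem_TT_St] at ht
    obtain ⟨i, _, k, rfl⟩ := ht
    rw [Finsupp.add_apply, Finsupp.add_apply, Finsupp.single_eq_same]
    omega
  obtain ⟨w1, hw1⟩ : ∃ w : Fin n →₀ ℕ, w = Finsupp.single a 1 + Finsupp.single b 2 := ⟨_, rfl⟩
  obtain ⟨w2, hw2⟩ : ∃ w : Fin n →₀ ℕ, w = Finsupp.single a 1 + Finsupp.single b 1 +
    Finsupp.single d 1 := ⟨_, rfl⟩
  obtain ⟨w3, hw3⟩ : ∃ w : Fin n →₀ ℕ, w = Finsupp.single a 1 + Finsupp.single d 2 := ⟨_, rfl⟩
  have s2 : ∀ x : Fin n, (Finsupp.single x 2 : Fin n →₀ ℕ) = Finsupp.single x 1 + Finsupp.single x 1 := by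
    intro x
    rw [← Finsupp.single_add]
  have hTT : ∀ (M : Finset (Fin n →₀ ℕ)) (w t : Fin n →₀ ℕ), t ∈ TT (insert w M) ↔
      t ∈ TT M ∨ ∃ k, w + Finsupp.single k 1 = t := by
    intro M w t
    rw [mem_TT, mem_TT]
    constructor
    · rintro ⟨s, hs, k, rfl⟩
      rcases Finset.mem_insert.1 hs with rfl | hs
      · exact Or.inr ⟨k, rfl⟩
      · exact Or.inl ⟨s, hs, k, rfl⟩
    · rintro (⟨s, hs, k, rfl⟩ | ⟨k, rfl⟩)
      · exact ⟨s, Finset.mem_insert_of_mem hs, k, rfl⟩
      · exact ⟨w, Finset.mem_insert_self _ _, k, rfl⟩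
  -- exponents at `a` and `b`
  have ea1 : w1 a = 1 := by
    rw [hw1, Finsupp.add_apply, Finsupp.single_eq_same, Finsupp.single_eq_of_ne hab]
    all_goals norm_num
  have ea2 : w2 a = 1 := by
    rw [hw2, Finsupp.add_apply, Finsupp.add_apply, Finsupp.single_eq_same,
      Finsupp.single_eq_of_ne hab, Finsupp.single_eq_of_ne had]
    all_goals norm_num
  have ea3 : w3 a = 1 := by
    rw [hw3, Finsupp.add_apply, Finsupp.single_eq_same, Finsupp.single_eq_of_ne had]
    all_goals norm_num
  have eb1 : w1 b = 2 := by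
    rw [hw1, Finsupp.add_apply, Finsupp.single_eq_same, Finsupp.single_eq_of_ne hab.symm]
  have eb2 : w2 b = 1 := by
    rw [hw2, Finsupp.add_apply, Finsupp.add_apply, Finsupp.single_eq_same,
      Finsupp.single_eq_of_ne hab.symm, Finsupp.single_eq_of_ne hbd]
    all_goals norm_num
  have eb3 : w3 b = 0 := by
    rw [hw3, Finsupp.add_apply, Finsupp.single_eq_of_ne hab.symm, Finsupp.single_eq_of_ne hbd]
    all_goals norm_num
  have k1 : (TT (insert w1 (St n a c))).card + 1 = (TT (St n a c)).card + n := by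
    apply ins (by omega)
    · intro l hl
      have : l = a := Fin.ext (by omega)
      subst this
      rw [mem_TT_St]
      refine ⟨b, by omega, b, ?_⟩
      rw [hw1, s2, s2]
      abel
    · intro l hl hmem
      have h1 := hexp _ hmem
      rw [Finsupp.add_apply, ea1, Finsupp.single_eq_of_ne (hla l hl).symm] at h1
      omega
  have k2 : (TT (insert w2 (insert w1 (St n a c)))).card + 2 =
      (TT (insert w1 (St n a c))).card + n := by
    apply ins (by omega)
    · intro l hl
      rw [hTT]
      rcases Nat.lt_or_ge l.1 1 with h | h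
      · have : l = a := Fin.ext (by omega)
        subst this
        left
        rw [mem_TT_St]
        refine ⟨b, by omega, d, ?_⟩
        rw [hw2, s2]
        abel
      · have : l = b := Fin.ext (by omega)
        subst this
        right
        refine ⟨d, ?_⟩
        rw [hw1, hw2, s2]
        abel
    · intro l hl hmem
      rw [hTT] at hmem
      rcases hmem with hmem | ⟨k, hk⟩
      · have h1 := hexp _ hmem
        rw [Finsupp.add_apply, ea2, Finsupp.single_eq_of_ne (hla l (by omega)).symm] at h1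
        omega
      · have h1 := DFunLike.congr_fun hk b
        rw [Finsupp.add_apply, Finsupp.add_apply, eb1, eb2,
          Finsupp.single_eq_of_ne (hlb l hl).symm] at h1
        omega
  have k3 : (TT (insert w3 (insert w2 (insert w1 (St n a c))))).card + 2 =
      (TT (insert w2 (insert w1 (St n a c)))).card + n := by
    apply ins (by omega)
    · intro l hl
      rw [hTT, hTT]
      rcases Nat.lt_or_ge l.1 1 with h | h
      · have : l = a := Fin.ext (by omega)
        subst this
        left
        left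
        rw [mem_TT_St]
        refine ⟨d, by omega, d, ?_⟩
        rw [hw3, s2, s2]
        abel
      · have : l = b := Fin.ext (by omega)
        subst this
        right
        refine ⟨d, ?_⟩
        rw [hw2, hw3, s2]
        abel
    · intro l hl hmem
      rw [hTT, hTT] at hmem
      rcases hmem with (hmem | ⟨k, hk⟩) | ⟨k, hk⟩
      · have h1 := hexp _ hmem
        rw [Finsupp.add_apply, ea3, Finsupp.single_eq_of_ne (hla l (by omega)).symm] at h1
        omega
      · have h1 := DFunLike.congr_fun hk b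
        rw [Finsupp.add_apply, Finsupp.add_apply, eb1, eb3,
          Finsupp.single_eq_of_ne (hlb l hl).symm] at h1
        omega
      · have h1 := DFunLike.congr_fun hk b
        rw [Finsupp.add_apply, Finsupp.add_apply, eb2, eb3,
          Finsupp.single_eq_of_ne (hlb l hl).symm] at h1
        omega
  refine ⟨insert w3 (insert w2 (insert w1 (St n a c))), ?_⟩
  have e : 2 * (n * (c + 3)) = 2 * (n * c) + 6 * n := by ring
  omega

end Pool.Agent.H216.IG.SIX
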