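import Pool.Agent.H216.SOS.Data
import Pool.Agent.H216.SOS.Card

set_option autoImplicit false

/-! Statements for the second family of gaps in `S_1(n)` (`MP_ce7760_an`). -/

namespace Pool.Agent.H216.IG

open MvPolynomial Module Pool.Agent.H216.SOS

/-- proportional polynomials -/
def S_WR : Prop := ∀ (n : ℕ) (u v : R n), v ≠ 0 → (∀ i, v * pderiv i u = u * pderiv i v) →
  ∃ c : ℂ, u = c • v

/-- the flag estimate -/
def S_FLAG : Prop := ∀ (n m : ℕ) (q : Fin m → R n),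
  ∑ a ∈ Finset.Icc 1 n, rk (Submodule.span ℂ (Set.range q)) a ≤ finrank ℂ (SS q)

/-- a clique gives syzygies -/
def S_CLQ : Prop := ∀ (n m c : ℕ) (q : Fin m → R n) (g : R n) (A : Submodule ℂ (Fin n → ℂ)),
  LinearIndependent ℂ q → g ≠ 0 → (∀ a ∈ A, lin a * g ∈ Submodule.span ℂ (Set.range q)) →
  c ≤ finrank ℂ A → 2 * finrank ℂ (SS q) + c * (c - 1) ≤ 2 * (n * m)

/-- the numerical lemma -/
def S_NUM : Prop := ∀ (n k j : ℕ) (r : ℕ → ℕ), 1 ≤ j → j * (j + 3) + 2 < 2 * k → k ≤ n →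
  1 ≤ r 1 → (∀ b, r b ≤ k) → (∀ b, r b ≤ r (b + 1)) →
  (∀ b, 1 ≤ b → r b < k → r b + 1 ≤ r (b + 1)) →
  (∀ a, 1 ≤ a → r (a + 1) ≤ r a + 1 → r a + 3 ≤ k → a + j ≤ r a) →
  2 * (k * n) ≤ 2 * (∑ b ∈ Finset.Icc 1 n, r b) + (k - j) * (k - j - 1) + (j + 1) * j

/-- two stars with a common member -/
def S_TWO : Prop := ∀ n c e m : ℕ, 1 ≤ c → 1 ≤ e → c ≤ n → e ≤ n → 2 ≤ n →
  2 * m + c * (c - 1) + e * (e - 1) = 2 * (n * (c + e - 1)) → m ∈ TSet n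

/-- the gradient of `u` at `y` -/
noncomputable def grad {n : ℕ} (u : R n) (y : Fin n → ℂ) : Fin n → ℂ := fun i => eval y (pderiv i u)

/-- the first order relation -/
def S_E1 : Prop := ∀ (n a : ℕ) (W : Submodule ℂ (R n)) [FiniteDimensional ℂ W]
  (χ : Matrix (Fin n) (Fin a) ℂ), rk W (a + 1) ≤ finrank ℂ (res W χ) + 1 →
  ∀ u₁ ∈ W, ∀ u₂ ∈ W, pb χ u₁ = 0 → pb χ u₂ = 0 → ∀ x : Fin a → ℂ,
    lin (grad u₁ (χ.mulVec x)) * u₂ = lin (grad u₂ (χ.mulVec x)) * u₁ ∧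
    ∀ (z : Fin n → ℂ) (t : Fin a → ℂ) (s : ℂ),
      eval z u₁ * eval (χ.mulVec t + s • z) u₂ = eval z u₂ * eval (χ.mulVec t + s • z) u₁

/-- the clique lemma -/
def S_KEY : Prop := ∀ (n a d k : ℕ) (W : Submodule ℂ (R n)) [FiniteDimensional ℂ W],
  1 ≤ a → a < n → rk W a = d → rk W (a + 1) ≤ d + 1 → finrank ℂ W = k → d + 3 ≤ k →
  ∃ (g : R n) (A : Submodule ℂ (Fin n → ℂ)), g ≠ 0 ∧ (∀ b ∈ A, lin b * g ∈ W) ∧
    a + (k - d) ≤ finrank ℂ A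

end Pool.Agent.H216.IG
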