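import Pool.Agent.H216.IG.Stm

set_option autoImplicit false

/-! Further statements for the second family of gaps in `S_1(n)` (`MP_ce7760_an`). -/

namespace Pool.Agent.H216.IG

open MvPolynomial Module Pool.Agent.H216.SOS

/-- chains of stars -/
def S_MULTI : Prop := ∀ (n : ℕ) (ts : List ℕ) (m : ℕ), 2 ≤ n → (∀ t ∈ ts, t + 1 ≤ n) →
  2 * m + (ts.map fun t => t * (t + 1)).sum = 2 * (n * (1 + ts.sum)) → m ∈ TSet n

/-- a table -/
def S_TAB : Prop := ∀ k s : ℕ, 1 ≤ k → k ≤ 9 → 2 * s ≤ k * (k - 1) →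
  (∃ j, 1 ≤ j ∧ j * (j + 3) + 2 < 2 * k ∧ (k - j) * (k - j - 1) + (j + 1) * j < 2 * s ∧
    2 * s < (k - j + 1) * (k - j)) ∨
  (∃ ts : List ℕ, ts.sum + 1 ≤ k ∧ (ts.map fun t => t * (t + 1)).sum = 2 * s)

end Pool.Agent.H216.IG
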