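import Pool.Agent.H216.SOS.Card

set_option autoImplicit false

open MvPolynomial ComplexConjugate

namespace Pool.Agent.H216.IG.Str

open Pool.Agent.H216.SOS

/-- the structure theorem below the gaps, with the rank as a dimension -/
theorem structure_dim {n κ m : ℕ} (hn : 4 ≤ n) (hκ : κ * (κ + 1) + 4 ≤ 2 * n)
    (hm : 2 * m + κ * (κ + 1) < 2 * (κ + 1) * n)
    (p : Fin m → MvPolynomial (Fin n) ℂ) (A : MvPolynomial (Fin n ⊕ Fin n) ℂ)
    (hp : LinearIndependent ℂ p)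
    (hA : ∀ z : Fin n → ℂ, ((∑ j, ‖eval z (p j)‖ ^ 2 : ℝ) : ℂ) =
      ((∑ k, ‖z k‖ ^ 2 : ℝ) : ℂ) ^ 1 * eval (Sum.elim z (fun k => conj (z k))) A) :
    ∃ ρ ≤ κ, ∃ q : Fin ρ → MvPolynomial (Fin n) ℂ, LinearIndependent ℂ q ∧
      m = Module.finrank ℂ (SS q) ∧ m ≤ ρ * n := by
  obtain ⟨n, rfl⟩ : ∃ n', n = n' + 4 := ⟨n - 4, by omega⟩
  obtain ⟨ρ, q, lam, hρ, hq, hlam, hAq, hspan, hN⟩ := main_four κ hκ hm p hp A
    (fun z => by rw [hA z, pow_one])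
  refine ⟨ρ, hρ, q, hq, ?_, ?_⟩
  · rw [← hspan, finrank_span_eq_card hp]
    simp
  · rw [mul_comm]
    exact hN

theorem TSet_add {n m : ℕ} (hm : m ∈ TSet (n + 1)) (j : ℕ) : m + j * (n + 1) ∈ TSet (n + 1) := by
  induction j with
  | zero => simpa using hm
  | succ j ih =>
    have := add_mem_TSet ih
    have e : m + (j + 1) * (n + 1) = m + j * (n + 1) + (n + 1) := by ring
    rwa [e]

end Pool.Agent.H216.IG.Str
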