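import Pool.Agent.H216.IG.Stm2

set_option autoImplicit false

/-! The finite table `S_TAB` (helper874). -/

namespace Pool.Agent.H216.IG.TAB

open Pool.Agent.H216.IG

theorem row1 (s : ℕ) (hs : s ≤ 0) :
    (∃ j, 1 ≤ j ∧ j * (j + 3) + 2 < 2 * 1 ∧ (1 - j) * (1 - j - 1) + (j + 1) * j < 2 * s ∧
      2 * s < (1 - j + 1) * (1 - j)) ∨
    (∃ ts : List ℕ, ts.sum + 1 ≤ 1 ∧ (ts.map fun t => t * (t + 1)).sum = 2 * s) := by
  interval_cases s
  · exact Or.inr ⟨[], by decide, by decide⟩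

theorem row2 (s : ℕ) (hs : s ≤ 1) :
    (∃ j, 1 ≤ j ∧ j * (j + 3) + 2 < 2 * 2 ∧ (2 - j) * (2 - j - 1) + (j + 1) * j < 2 * s ∧
      2 * s < (2 - j + 1) * (2 - j)) ∨
    (∃ ts : List ℕ, ts.sum + 1 ≤ 2 ∧ (ts.map fun t => t * (t + 1)).sum = 2 * s) := by
  interval_cases s
  · exact Or.inr ⟨[], by decide, by decide⟩
  · exact Or.inr ⟨[1], by decide, by decide⟩

theorem row3 (s : ℕ) (hs : s ≤ 3) :
    (∃ j, 1 ≤ j ∧ j * (j + 3) + 2 < 2 * 3 ∧ (3 - j) * (3 - j - 1) + (j + 1) * j < 2 * s ∧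
      2 * s < (3 - j + 1) * (3 - j)) ∨
    (∃ ts : List ℕ, ts.sum + 1 ≤ 3 ∧ (ts.map fun t => t * (t + 1)).sum = 2 * s) := by
  interval_cases s
  · exact Or.inr ⟨[], by decide, by decide⟩
  · exact Or.inr ⟨[1], by decide, by decide⟩
  · exact Or.inr ⟨[1, 1], by decide, by decide⟩
  · exact Or.inr ⟨[2], by decide, by decide⟩

theorem row4 (s : ℕ) (hs : s ≤ 6) :
    (∃ j, 1 ≤ j ∧ j * (j + 3) + 2 < 2 * 4 ∧ (4 - j) * (4 - j - 1) + (j + 1) * j < 2 * s ∧
      2 * s < (4 - j + 1) * (4 - j)) ∨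
    (∃ ts : List ℕ, ts.sum + 1 ≤ 4 ∧ (ts.map fun t => t * (t + 1)).sum = 2 * s) := by
  interval_cases s
  · exact Or.inr ⟨[], by decide, by decide⟩
  · exact Or.inr ⟨[1], by decide, by decide⟩
  · exact Or.inr ⟨[1, 1], by decide, by decide⟩
  · exact Or.inr ⟨[2], by decide, by decide⟩
  · exact Or.inr ⟨[2, 1], by decide, by decide⟩
  · exact Or.inl ⟨1, by decide⟩
  · exact Or.inr ⟨[3], by decide, by decide⟩

theorem row5 (s : ℕ) (hs : s ≤ 10) :
    (∃ j, 1 ≤ j ∧ j * (j + 3) + 2 < 2 * 5 ∧ (5 - j) * (5 - j - 1) + (j + 1) * j < 2 * s ∧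
      2 * s < (5 - j + 1) * (5 - j)) ∨
    (∃ ts : List ℕ, ts.sum + 1 ≤ 5 ∧ (ts.map fun t => t * (t + 1)).sum = 2 * s) := by
  interval_cases s
  · exact Or.inr ⟨[], by decide, by decide⟩
  · exact Or.inr ⟨[1], by decide, by decide⟩
  · exact Or.inr ⟨[1, 1], by decide, by decide⟩
  · exact Or.inr ⟨[2], by decide, by decide⟩
  · exact Or.inr ⟨[2, 1], by decide, by decide⟩
  · exact Or.inr ⟨[2, 1, 1], by decide, by decide⟩
  · exact Or.inr ⟨[3], by decide, by decide⟩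
  · exact Or.inr ⟨[3, 1], by decide, by decide⟩
  · exact Or.inl ⟨1, by decide⟩
  · exact Or.inl ⟨1, by decide⟩
  · exact Or.inr ⟨[4], by decide, by decide⟩

theorem row6 (s : ℕ) (hs : s ≤ 15) :
    (∃ j, 1 ≤ j ∧ j * (j + 3) + 2 < 2 * 6 ∧ (6 - j) * (6 - j - 1) + (j + 1) * j < 2 * s ∧
      2 * s < (6 - j + 1) * (6 - j)) ∨
    (∃ ts : List ℕ, ts.sum + 1 ≤ 6 ∧ (ts.map fun t => t * (t + 1)).sum = 2 * s) := by
  interval_cases s
  · exact Or.inr ⟨[], by decide, by decide⟩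
  · exact Or.inr ⟨[1], by decide, by decide⟩
  · exact Or.inr ⟨[1, 1], by decide, by decide⟩
  · exact Or.inr ⟨[2], by decide, by decide⟩
  · exact Or.inr ⟨[2, 1], by decide, by decide⟩
  · exact Or.inr ⟨[2, 1, 1], by decide, by decide⟩
  · exact Or.inr ⟨[3], by decide, by decide⟩
  · exact Or.inr ⟨[3, 1], by decide, by decide⟩
  · exact Or.inr ⟨[3, 1, 1], by decide, by decide⟩
  · exact Or.inr ⟨[3, 2], by decide, by decide⟩
  · exact Or.inr ⟨[4], by decide, by decide⟩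
  · exact Or.inr ⟨[4, 1], by decide, by decide⟩
  · exact Or.inl ⟨1, by decide⟩
  · exact Or.inl ⟨1, by decide⟩
  · exact Or.inl ⟨1, by decide⟩
  · exact Or.inr ⟨[5], by decide, by decide⟩

theorem row7 (s : ℕ) (hs : s ≤ 21) :
    (∃ j, 1 ≤ j ∧ j * (j + 3) + 2 < 2 * 7 ∧ (7 - j) * (7 - j - 1) + (j + 1) * j < 2 * s ∧
      2 * s < (7 - j + 1) * (7 - j)) ∨
    (∃ ts : List ℕ, ts.sum + 1 ≤ 7 ∧ (ts.map fun t => t * (t + 1)).sum = 2 * s) := by
  interval_cases s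
  · exact Or.inr ⟨[], by decide, by decide⟩
  · exact Or.inr ⟨[1], by decide, by decide⟩
  · exact Or.inr ⟨[1, 1], by decide, by decide⟩
  · exact Or.inr ⟨[2], by decide, by decide⟩
  · exact Or.inr ⟨[2, 1], by decide, by decide⟩
  · exact Or.inr ⟨[2, 1, 1], by decide, by decide⟩
  · exact Or.inr ⟨[3], by decide, by decide⟩
  · exact Or.inr ⟨[3, 1], by decide, by decide⟩
  · exact Or.inr ⟨[3, 1, 1], by decide, by decide⟩
  · exact Or.inr ⟨[3, 2], by decide, by decide⟩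
  · exact Or.inr ⟨[4], by decide, by decide⟩
  · exact Or.inr ⟨[4, 1], by decide, by decide⟩
  · exact Or.inr ⟨[4, 1, 1], by decide, by decide⟩
  · exact Or.inr ⟨[4, 2], by decide, by decide⟩
  · exact Or.inl ⟨2, by decide⟩
  · exact Or.inr ⟨[5], by decide, by decide⟩
  · exact Or.inr ⟨[5, 1], by decide, by decide⟩
  · exact Or.inl ⟨1, by decide⟩
  · exact Or.inl ⟨1, by decide⟩
  · exact Or.inl ⟨1, by decide⟩
  · exact Or.inl ⟨1, by decide⟩
  · exact Or.inr ⟨[6], by decide, by decide⟩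

theorem row8 (s : ℕ) (hs : s ≤ 28) :
    (∃ j, 1 ≤ j ∧ j * (j + 3) + 2 < 2 * 8 ∧ (8 - j) * (8 - j - 1) + (j + 1) * j < 2 * s ∧
      2 * s < (8 - j + 1) * (8 - j)) ∨
    (∃ ts : List ℕ, ts.sum + 1 ≤ 8 ∧ (ts.map fun t => t * (t + 1)).sum = 2 * s) := by
  interval_cases s
  · exact Or.inr ⟨[], by decide, by decide⟩
  · exact Or.inr ⟨[1], by decide, by decide⟩
  · exact Or.inr ⟨[1, 1], by decide, by decide⟩
  · exact Or.inr ⟨[2], by decide, by decide⟩
  · exact Or.inr ⟨[2, 1], by decide, by decide⟩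
  · exact Or.inr ⟨[2, 1, 1], by decide, by decide⟩
  · exact Or.inr ⟨[3], by decide, by decide⟩
  · exact Or.inr ⟨[3, 1], by decide, by decide⟩
  · exact Or.inr ⟨[3, 1, 1], by decide, by decide⟩
  · exact Or.inr ⟨[3, 2], by decide, by decide⟩
  · exact Or.inr ⟨[4], by decide, by decide⟩
  · exact Or.inr ⟨[4, 1], by decide, by decide⟩
  · exact Or.inr ⟨[4, 1, 1], by decide, by decide⟩
  · exact Or.inr ⟨[4, 2], by decide, by decide⟩
  · exact Or.inr ⟨[4, 2, 1], by decide, by decide⟩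
  · exact Or.inr ⟨[5], by decide, by decide⟩
  · exact Or.inr ⟨[5, 1], by decide, by decide⟩
  · exact Or.inr ⟨[5, 1, 1], by decide, by decide⟩
  · exact Or.inr ⟨[5, 2], by decide, by decide⟩
  · exact Or.inl ⟨2, by decide⟩
  · exact Or.inl ⟨2, by decide⟩
  · exact Or.inr ⟨[6], by decide, by decide⟩
  · exact Or.inr ⟨[6, 1], by decide, by decide⟩
  · exact Or.inl ⟨1, by decide⟩
  · exact Or.inl ⟨1, by decide⟩
  · exact Or.inl ⟨1, by decide⟩
  · exact Or.inl ⟨1, by decide⟩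
  · exact Or.inl ⟨1, by decide⟩
  · exact Or.inr ⟨[7], by decide, by decide⟩

theorem row9 (s : ℕ) (hs : s ≤ 36) :
    (∃ j, 1 ≤ j ∧ j * (j + 3) + 2 < 2 * 9 ∧ (9 - j) * (9 - j - 1) + (j + 1) * j < 2 * s ∧
      2 * s < (9 - j + 1) * (9 - j)) ∨
    (∃ ts : List ℕ, ts.sum + 1 ≤ 9 ∧ (ts.map fun t => t * (t + 1)).sum = 2 * s) := by
  interval_cases s
  · exact Or.inr ⟨[], by decide, by decide⟩
  · exact Or.inr ⟨[1], by decide, by decide⟩
  · exact Or.inr ⟨[1, 1], by decide, by decide⟩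
  · exact Or.inr ⟨[2], by decide, by decide⟩
  · exact Or.inr ⟨[2, 1], by decide, by decide⟩
  · exact Or.inr ⟨[2, 1, 1], by decide, by decide⟩
  · exact Or.inr ⟨[3], by decide, by decide⟩
  · exact Or.inr ⟨[3, 1], by decide, by decide⟩
  · exact Or.inr ⟨[3, 1, 1], by decide, by decide⟩
  · exact Or.inr ⟨[3, 2], by decide, by decide⟩
  · exact Or.inr ⟨[4], by decide, by decide⟩
  · exact Or.inr ⟨[4, 1], by decide, by decide⟩
  · exact Or.inr ⟨[4, 1, 1], by decide, by decide⟩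
  · exact Or.inr ⟨[4, 2], by decide, by decide⟩
  · exact Or.inr ⟨[4, 2, 1], by decide, by decide⟩
  · exact Or.inr ⟨[5], by decide, by decide⟩
  · exact Or.inr ⟨[5, 1], by decide, by decide⟩
  · exact Or.inr ⟨[5, 1, 1], by decide, by decide⟩
  · exact Or.inr ⟨[5, 2], by decide, by decide⟩
  · exact Or.inr ⟨[5, 2, 1], by decide, by decide⟩
  · exact Or.inr ⟨[4, 4], by decide, by decide⟩
  · exact Or.inr ⟨[6], by decide, by decide⟩
  · exact Or.inr ⟨[6, 1], by decide, by decide⟩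
  · exact Or.inr ⟨[6, 1, 1], by decide, by decide⟩
  · exact Or.inr ⟨[6, 2], by decide, by decide⟩
  · exact Or.inl ⟨2, by decide⟩
  · exact Or.inl ⟨2, by decide⟩
  · exact Or.inl ⟨2, by decide⟩
  · exact Or.inr ⟨[7], by decide, by decide⟩
  · exact Or.inr ⟨[7, 1], by decide, by decide⟩
  · exact Or.inl ⟨1, by decide⟩
  · exact Or.inl ⟨1, by decide⟩
  · exact Or.inl ⟨1, by decide⟩
  · exact Or.inl ⟨1, by decide⟩
  · exact Or.inl ⟨1, by decide⟩
  · exact Or.inl ⟨1, by decide⟩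
  · exact Or.inr ⟨[8], by decide, by decide⟩

theorem t_TAB : S_TAB := by
  intro k s hk1 hk9 hs
  interval_cases k
  · exact row1 s (by omega)
  · exact row2 s (by omega)
  · exact row3 s (by omega)
  · exact row4 s (by omega)
  · exact row5 s (by omega)
  · exact row6 s (by omega)
  · exact row7 s (by omega)
  · exact row8 s (by omega)
  · exact row9 s (by omega)

end Pool.Agent.H216.IG.TAB
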