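import Pool.Agent.H216.IG.Stm3

set_option autoImplicit false

/-! The finite table `S_TABB` (helper214), the analogue for `k <= 12` of the table of helper874 in
`Pool/Agent/H216/IG/TAB.lean`. -/

namespace Pool.Agent.H216.IG.TABB

open Pool.Agent.H216.IG

/-- the three alternatives -/
def Alt (k s : ℕ) : Prop :=
  (∃ j, 1 ≤ j ∧ j * (j + 3) + 2 < 2 * k ∧ (k - j) * (k - j - 1) + (j + 1) * j < 2 * s ∧
    2 * s < (k - j + 1) * (k - j)) ∨
  (∃ ts : List ℕ, ts.sum + 1 ≤ k ∧ (ts.map fun t => t * (t + 1)).sum = 2 * s) ∨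
  (∃ c, 3 ≤ c ∧ k = c + 3 ∧ 2 * s = c * (c - 1) + 10)

theorem a1 {k s : ℕ} (j : ℕ) (h : 1 ≤ j ∧ j * (j + 3) + 2 < 2 * k ∧
    (k - j) * (k - j - 1) + (j + 1) * j < 2 * s ∧ 2 * s < (k - j + 1) * (k - j)) : Alt k s :=
  Or.inl ⟨j, h⟩

theorem a2 {k s : ℕ} (ts : List ℕ) (h : ts.sum + 1 ≤ k ∧
    (ts.map fun t => t * (t + 1)).sum = 2 * s) : Alt k s :=
  Or.inr (Or.inl ⟨ts, h⟩)

theorem a3 {k s : ℕ} (c : ℕ) (h : 3 ≤ c ∧ k = c + 3 ∧ 2 * s = c * (c - 1) + 10) : Alt k s :=
  Or.inr (Or.inr ⟨c, h⟩)


theorem row1 (s : ℕ) (hs : s ≤ 0) : Alt 1 s := by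
  interval_cases s
  · exact a2 [] (by decide)

theorem row2 (s : ℕ) (hs : s ≤ 1) : Alt 2 s := by
  interval_cases s
  · exact a2 [] (by decide)
  · exact a2 [1] (by decide)

theorem row3 (s : ℕ) (hs : s ≤ 3) : Alt 3 s := by
  interval_cases s
  · exact a2 [] (by decide)
  · exact a2 [1] (by decide)
  · exact a2 [1, 1] (by decide)
  · exact a2 [2] (by decide)

theorem row4 (s : ℕ) (hs : s ≤ 6) : Alt 4 s := by
  interval_cases s
  · exact a2 [] (by decide)
  · exact a2 [1] (by decide)
  · exact a2 [1, 1] (by decide)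
  · exact a2 [2] (by decide)
  · exact a2 [2, 1] (by decide)
  · exact a1 1 (by decide)
  · exact a2 [3] (by decide)

theorem row5 (s : ℕ) (hs : s ≤ 10) : Alt 5 s := by
  interval_cases s
  · exact a2 [] (by decide)
  · exact a2 [1] (by decide)
  · exact a2 [1, 1] (by decide)
  · exact a2 [2] (by decide)
  · exact a2 [2, 1] (by decide)
  · exact a2 [2, 1, 1] (by decide)
  · exact a2 [3] (by decide)
  · exact a2 [3, 1] (by decide)
  · exact a1 1 (by decide)
  · exact a1 1 (by decide)
  · exact a2 [4] (by decide)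

theorem row6 (s : ℕ) (hs : s ≤ 15) : Alt 6 s := by
  interval_cases s
  · exact a2 [] (by decide)
  · exact a2 [1] (by decide)
  · exact a2 [1, 1] (by decide)
  · exact a2 [2] (by decide)
  · exact a2 [2, 1] (by decide)
  · exact a2 [2, 1, 1] (by decide)
  · exact a2 [3] (by decide)
  · exact a2 [3, 1] (by decide)
  · exact a2 [3, 1, 1] (by decide)
  · exact a2 [3, 2] (by decide)
  · exact a2 [4] (by decide)
  · exact a2 [4, 1] (by decide)
  · exact a1 1 (by decide)
  · exact a1 1 (by decide)
  · exact a1 1 (by decide)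
  · exact a2 [5] (by decide)

theorem row7 (s : ℕ) (hs : s ≤ 21) : Alt 7 s := by
  interval_cases s
  · exact a2 [] (by decide)
  · exact a2 [1] (by decide)
  · exact a2 [1, 1] (by decide)
  · exact a2 [2] (by decide)
  · exact a2 [2, 1] (by decide)
  · exact a2 [2, 1, 1] (by decide)
  · exact a2 [3] (by decide)
  · exact a2 [3, 1] (by decide)
  · exact a2 [3, 1, 1] (by decide)
  · exact a2 [3, 2] (by decide)
  · exact a2 [4] (by decide)
  · exact a2 [4, 1] (by decide)
  · exact a2 [3, 3] (by decide)
  · exact a2 [4, 2] (by decide)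
  · exact a1 2 (by decide)
  · exact a2 [5] (by decide)
  · exact a2 [5, 1] (by decide)
  · exact a1 1 (by decide)
  · exact a1 1 (by decide)
  · exact a1 1 (by decide)
  · exact a1 1 (by decide)
  · exact a2 [6] (by decide)

theorem row8 (s : ℕ) (hs : s ≤ 28) : Alt 8 s := by
  interval_cases s
  · exact a2 [] (by decide)
  · exact a2 [1] (by decide)
  · exact a2 [1, 1] (by decide)
  · exact a2 [2] (by decide)
  · exact a2 [2, 1] (by decide)
  · exact a2 [2, 1, 1] (by decide)
  · exact a2 [3] (by decide)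
  · exact a2 [3, 1] (by decide)
  · exact a2 [3, 1, 1] (by decide)
  · exact a2 [3, 2] (by decide)
  · exact a2 [4] (by decide)
  · exact a2 [4, 1] (by decide)
  · exact a2 [3, 3] (by decide)
  · exact a2 [4, 2] (by decide)
  · exact a2 [4, 2, 1] (by decide)
  · exact a2 [5] (by decide)
  · exact a2 [5, 1] (by decide)
  · exact a2 [5, 1, 1] (by decide)
  · exact a2 [5, 2] (by decide)
  · exact a1 2 (by decide)
  · exact a1 2 (by decide)
  · exact a2 [6] (by decide)
  · exact a2 [6, 1] (by decide)
  · exact a1 1 (by decide)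
  · exact a1 1 (by decide)
  · exact a1 1 (by decide)
  · exact a1 1 (by decide)
  · exact a1 1 (by decide)
  · exact a2 [7] (by decide)

theorem row9 (s : ℕ) (hs : s ≤ 36) : Alt 9 s := by
  interval_cases s
  · exact a2 [] (by decide)
  · exact a2 [1] (by decide)
  · exact a2 [1, 1] (by decide)
  · exact a2 [2] (by decide)
  · exact a2 [2, 1] (by decide)
  · exact a2 [2, 1, 1] (by decide)
  · exact a2 [3] (by decide)
  · exact a2 [3, 1] (by decide)
  · exact a2 [3, 1, 1] (by decide)
  · exact a2 [3, 2] (by decide)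
  · exact a2 [4] (by decide)
  · exact a2 [4, 1] (by decide)
  · exact a2 [3, 3] (by decide)
  · exact a2 [4, 2] (by decide)
  · exact a2 [4, 2, 1] (by decide)
  · exact a2 [5] (by decide)
  · exact a2 [5, 1] (by decide)
  · exact a2 [5, 1, 1] (by decide)
  · exact a2 [5, 2] (by decide)
  · exact a2 [5, 2, 1] (by decide)
  · exact a2 [4, 4] (by decide)
  · exact a2 [6] (by decide)
  · exact a2 [6, 1] (by decide)
  · exact a2 [6, 1, 1] (by decide)
  · exact a2 [6, 2] (by decide)
  · exact a1 2 (by decide)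
  · exact a1 2 (by decide)
  · exact a1 2 (by decide)
  · exact a2 [7] (by decide)
  · exact a2 [7, 1] (by decide)
  · exact a1 1 (by decide)
  · exact a1 1 (by decide)
  · exact a1 1 (by decide)
  · exact a1 1 (by decide)
  · exact a1 1 (by decide)
  · exact a1 1 (by decide)
  · exact a2 [8] (by decide)

theorem row10 (s : ℕ) (hs : s ≤ 45) : Alt 10 s := by
  interval_cases s
  · exact a2 [] (by decide)
  · exact a2 [1] (by decide)
  · exact a2 [1, 1] (by decide)
  · exact a2 [2] (by decide)
  · exact a2 [2, 1] (by decide)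
  · exact a2 [2, 1, 1] (by decide)
  · exact a2 [3] (by decide)
  · exact a2 [3, 1] (by decide)
  · exact a2 [3, 1, 1] (by decide)
  · exact a2 [3, 2] (by decide)
  · exact a2 [4] (by decide)
  · exact a2 [4, 1] (by decide)
  · exact a2 [3, 3] (by decide)
  · exact a2 [4, 2] (by decide)
  · exact a2 [4, 2, 1] (by decide)
  · exact a2 [5] (by decide)
  · exact a2 [5, 1] (by decide)
  · exact a2 [5, 1, 1] (by decide)
  · exact a2 [5, 2] (by decide)
  · exact a2 [5, 2, 1] (by decide)
  · exact a2 [4, 4] (by decide)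
  · exact a2 [6] (by decide)
  · exact a2 [6, 1] (by decide)
  · exact a2 [6, 1, 1] (by decide)
  · exact a2 [6, 2] (by decide)
  · exact a2 [5, 4] (by decide)
  · exact a3 7 (by decide)
  · exact a2 [6, 3] (by decide)
  · exact a2 [7] (by decide)
  · exact a2 [7, 1] (by decide)
  · exact a2 [7, 1, 1] (by decide)
  · exact a2 [7, 2] (by decide)
  · exact a1 2 (by decide)
  · exact a1 2 (by decide)
  · exact a1 2 (by decide)
  · exact a1 2 (by decide)
  · exact a2 [8] (by decide)
  · exact a2 [8, 1] (by decide)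
  · exact a1 1 (by decide)
  · exact a1 1 (by decide)
  · exact a1 1 (by decide)
  · exact a1 1 (by decide)
  · exact a1 1 (by decide)
  · exact a1 1 (by decide)
  · exact a1 1 (by decide)
  · exact a2 [9] (by decide)

theorem row11 (s : ℕ) (hs : s ≤ 55) : Alt 11 s := by
  interval_cases s
  · exact a2 [] (by decide)
  · exact a2 [1] (by decide)
  · exact a2 [1, 1] (by decide)
  · exact a2 [2] (by decide)
  · exact a2 [2, 1] (by decide)
  · exact a2 [2, 1, 1] (by decide)
  · exact a2 [3] (by decide)
  · exact a2 [3, 1] (by decide)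
  · exact a2 [3, 1, 1] (by decide)
  · exact a2 [3, 2] (by decide)
  · exact a2 [4] (by decide)
  · exact a2 [4, 1] (by decide)
  · exact a2 [3, 3] (by decide)
  · exact a2 [4, 2] (by decide)
  · exact a2 [4, 2, 1] (by decide)
  · exact a2 [5] (by decide)
  · exact a2 [5, 1] (by decide)
  · exact a2 [5, 1, 1] (by decide)
  · exact a2 [5, 2] (by decide)
  · exact a2 [5, 2, 1] (by decide)
  · exact a2 [4, 4] (by decide)
  · exact a2 [6] (by decide)
  · exact a2 [6, 1] (by decide)
  · exact a2 [6, 1, 1] (by decide)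
  · exact a2 [6, 2] (by decide)
  · exact a2 [5, 4] (by decide)
  · exact a2 [5, 4, 1] (by decide)
  · exact a2 [6, 3] (by decide)
  · exact a2 [7] (by decide)
  · exact a2 [7, 1] (by decide)
  · exact a2 [7, 1, 1] (by decide)
  · exact a2 [7, 2] (by decide)
  · exact a2 [7, 2, 1] (by decide)
  · exact a3 8 (by decide)
  · exact a2 [7, 3] (by decide)
  · exact a1 3 (by decide)
  · exact a2 [8] (by decide)
  · exact a2 [8, 1] (by decide)
  · exact a2 [8, 1, 1] (by decide)
  · exact a2 [8, 2] (by decide)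
  · exact a1 2 (by decide)
  · exact a1 2 (by decide)
  · exact a1 2 (by decide)
  · exact a1 2 (by decide)
  · exact a1 2 (by decide)
  · exact a2 [9] (by decide)
  · exact a2 [9, 1] (by decide)
  · exact a1 1 (by decide)
  · exact a1 1 (by decide)
  · exact a1 1 (by decide)
  · exact a1 1 (by decide)
  · exact a1 1 (by decide)
  · exact a1 1 (by decide)
  · exact a1 1 (by decide)
  · exact a1 1 (by decide)
  · exact a2 [10] (by decide)

theorem row12 (s : ℕ) (hs : s ≤ 66) : Alt 12 s := by
  interval_cases s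
  · exact a2 [] (by decide)
  · exact a2 [1] (by decide)
  · exact a2 [1, 1] (by decide)
  · exact a2 [2] (by decide)
  · exact a2 [2, 1] (by decide)
  · exact a2 [2, 1, 1] (by decide)
  · exact a2 [3] (by decide)
  · exact a2 [3, 1] (by decide)
  · exact a2 [3, 1, 1] (by decide)
  · exact a2 [3, 2] (by decide)
  · exact a2 [4] (by decide)
  · exact a2 [4, 1] (by decide)
  · exact a2 [3, 3] (by decide)
  · exact a2 [4, 2] (by decide)
  · exact a2 [4, 2, 1] (by decide)
  · exact a2 [5] (by decide)
  · exact a2 [5, 1] (by decide)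
  · exact a2 [5, 1, 1] (by decide)
  · exact a2 [5, 2] (by decide)
  · exact a2 [5, 2, 1] (by decide)
  · exact a2 [4, 4] (by decide)
  · exact a2 [6] (by decide)
  · exact a2 [6, 1] (by decide)
  · exact a2 [6, 1, 1] (by decide)
  · exact a2 [6, 2] (by decide)
  · exact a2 [5, 4] (by decide)
  · exact a2 [5, 4, 1] (by decide)
  · exact a2 [6, 3] (by decide)
  · exact a2 [7] (by decide)
  · exact a2 [7, 1] (by decide)
  · exact a2 [7, 1, 1] (by decide)
  · exact a2 [7, 2] (by decide)
  · exact a2 [7, 2, 1] (by decide)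
  · exact a2 [7, 2, 1, 1] (by decide)
  · exact a2 [7, 3] (by decide)
  · exact a2 [7, 3, 1] (by decide)
  · exact a2 [8] (by decide)
  · exact a2 [8, 1] (by decide)
  · exact a2 [8, 1, 1] (by decide)
  · exact a2 [8, 2] (by decide)
  · exact a2 [8, 2, 1] (by decide)
  · exact a3 9 (by decide)
  · exact a2 [8, 3] (by decide)
  · exact a1 3 (by decide)
  · exact a1 3 (by decide)
  · exact a2 [9] (by decide)
  · exact a2 [9, 1] (by decide)
  · exact a2 [9, 1, 1] (by decide)
  · exact a2 [9, 2] (by decide)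
  · exact a1 2 (by decide)
  · exact a1 2 (by decide)
  · exact a1 2 (by decide)
  · exact a1 2 (by decide)
  · exact a1 2 (by decide)
  · exact a1 2 (by decide)
  · exact a2 [10] (by decide)
  · exact a2 [10, 1] (by decide)
  · exact a1 1 (by decide)
  · exact a1 1 (by decide)
  · exact a1 1 (by decide)
  · exact a1 1 (by decide)
  · exact a1 1 (by decide)
  · exact a1 1 (by decide)
  · exact a1 1 (by decide)
  · exact a1 1 (by decide)
  · exact a1 1 (by decide)
  · exact a2 [11] (by decide)

theorem t_TABB : S_TABB := by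
  intro k s hk1 hk12 hs
  have h : Alt k s := by
    interval_cases k
    · exact row1 s (by omega)
    · exact row2 s (by omega)
    · exact row3 s (by omega)
    · exact row4 s (by omega)
    · exact row5 s (by omega)
    · exact row6 s (by omega)
    · exact row7 s (by omega)
    · exact row8 s (by omega)
    · exact row9 s (by omega)
    · exact row10 s (by omega)
    · exact row11 s (by omega)
    · exact row12 s (by omega)
  exact h

end Pool.Agent.H216.IG.TABB
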